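import Pool.Agent.TH900.VPS.Disj
import Pool.Agent.W89.VP.Final
import Pool.Agent.W505.PV.Ref
import Pool.Agent.W346.PV.FacAvg
import Pool.Agent.W346.PV.Newt
import Pool.Agent.W346.PV.Diag
import Pool.Agent.W156.PV_RED

/-! Assembly. -/

set_option autoImplicit false

namespace Pool.Agent.TH900.VPS

open Finset
open Pool.Agent.W89.VP

theorem mainU : MAIN' := by
  have hDIV := Pool.Agent.W505.PV.VF.mainDIV
  have hVF := Pool.Agent.W505.PV.VF.mainVF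
  have hREF := Pool.Agent.W505.PV.Ref.main
  have hVINF := Pool.Agent.W505.PV.Vinf.main hDIV
  have hUNIQ := uniq' Pool.Agent.TH900.VPS.A2.main
  have hCARDU := cardu' hUNIQ hDIV hVINF
  exact main' hCARDU hDIV hVINF Pool.Agent.W346.PV.FacAvg.mainFAC hVF hREF

/-- disjoint solutions, square-root bound -/
theorem vd_sqrt (k d : ℕ) (hd : 1 ≤ d) (hk : 3 * d ≤ k) (ε : ℝ) (hε : 0 < ε) :
    ∃ C : ℝ, 0 < C ∧ ∀ N : ℕ, 1 ≤ N → ((VD (k + d) k N).card : ℝ) ≤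
      C * (N : ℝ) ^ (Real.sqrt (4 * (2 * (d : ℝ) - 1) * ((k : ℝ) + d) + 1) + ((d : ℝ) - 1) + ε) := by
  set t : ℕ := k + d with ht
  set B : ℕ := (2 * d - 1) * t with hB
  have hex : ∃ n : ℕ, B ≤ n * (n + 1) := ⟨B, by nlinarith⟩
  classical
  set n : ℕ := Nat.find hex with hn
  have hn1 : B ≤ n * (n + 1) := Nat.find_spec hex
  have hn2 : n * (n - 1) ≤ B := by
    rcases Nat.eq_zero_or_pos n with h0 | h0
    · rw [h0]; simp
    · have h1 := Nat.find_min hex (m := n - 1) (by omega)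
      have h2 : n - 1 + 1 = n := by omega
      rw [h2] at h1
      rw [mul_comm]
      omega
  obtain ⟨e, he⟩ : ∃ e, d = e + 1 := ⟨d - 1, by omega⟩
  have hB' : B = (2 * e + 1) * t := by
    rw [hB, he]
    congr 1
  have htd : 4 * d ≤ t := by omega
  have h2dn : 2 * d ≤ n := by
    by_contra hcon
    push Not at hcon
    have h1 : n ≤ 2 * e + 1 := by omega
    have h2 : n * (n + 1) ≤ (2 * e + 1) * (2 * e + 2) := Nat.mul_le_mul h1 (by omega)
    have h3 : (2 * e + 1) * (4 * (e + 1)) ≤ B := by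
      rw [hB']
      exact Nat.mul_le_mul_left _ (by omega)
    nlinarith
  have hn0 : 0 < n := by omega
  have hnr : (0 : ℝ) < n := by exact_mod_cast hn0
  have hnt : n ≤ t := by
    by_contra hcon
    push Not at hcon
    have h1 : (t + 1) * t ≤ n * (n - 1) := Nat.mul_le_mul (by omega) (by omega)
    have h2 : B ≤ t * t := by
      rw [hB']
      exact Nat.mul_le_mul_right _ (by omega)
    have h3 : 0 < t := by omega
    nlinarith
  -- r ≤ t condition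
  have hrt : (2 * t + n) * e ≤ t * n := by
    by_contra hcon
    push Not at hcon
    -- n (t - e) < 2 t e, so 3 n < 8 e
    have hte : 4 * e + 4 ≤ t := by omega
    have h1 : n * (t - e) < 2 * t * e := by
      have h2 : n * (t - e) + n * e = n * t := by
        rw [← Nat.mul_add]
        congr 1
        omega
      nlinarith
    have h3 : 3 * n < 8 * e := by
      have h4 : 3 * t ≤ 4 * (t - e) := by omega
      have h5 : n * (3 * t) ≤ n * (4 * (t - e)) := Nat.mul_le_mul_left _ h4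
      have h6 : (3 * n) * t < (8 * e) * t := by nlinarith
      exact Nat.lt_of_mul_lt_mul_right h6
    have h7 : (2 * e + 1) * (4 * (e + 1)) ≤ B := by
      rw [hB']
      exact Nat.mul_le_mul_left _ (by omega)
    have h8 : (3 * n) * (3 * n + 3) ≤ (8 * e) * (8 * e + 3) := Nat.mul_le_mul (by omega) (by omega)
    nlinarith
  set c : ℝ := 2 * (t : ℝ) / n + 1 with hc
  have hc0 : 0 ≤ c := by positivity
  have htr : (0 : ℝ) ≤ t := by positivity
  have hRC : RC d n t (fun δ => ⌊c * δ⌋₊) c := by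
    refine ⟨hc0, ?_⟩
    intro δ hδ hδd
    have hδr : (1 : ℝ) ≤ δ := by exact_mod_cast hδ
    have hcδ : 0 ≤ c * δ := by positivity
    have hfl : c * δ < (⌊c * δ⌋₊ : ℝ) + 1 := Nat.lt_floor_add_one _
    have hfl2 : (⌊c * δ⌋₊ : ℝ) ≤ c * δ := Nat.floor_le hcδ
    have hcn : c * n = 2 * t + n := by rw [hc]; field_simp
    have hkey : (n : ℝ) * (δ - 1) < (⌊c * δ⌋₊ : ℝ) * n - 2 * δ * t := by
      have h1 : c * δ * n < ((⌊c * δ⌋₊ : ℝ) + 1) * n := by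
        exact mul_lt_mul_of_pos_right hfl hnr
      have h2 : c * δ * n = (2 * t + n) * δ := by rw [← hcn]; ring
      rw [h2] at h1
      nlinarith
    refine ⟨?_, ?_, hfl2, ?_⟩
    · have h1 : (2 : ℝ) * δ * t < (⌊c * δ⌋₊ : ℝ) * n := by
        have : 0 ≤ (n : ℝ) * (δ - 1) := mul_nonneg hnr.le (by linarith)
        linarith
      exact_mod_cast h1
    · have h1 : (⌊c * δ⌋₊ : ℝ) ≤ t := by
        refine hfl2.trans ?_
        have h2 : (δ : ℝ) ≤ e := by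
          have : δ ≤ e := by omega
          exact_mod_cast this
        have h3 : c * δ ≤ c * e := mul_le_mul_of_nonneg_left h2 hc0
        have h4 : ((2 * t + n) * e : ℝ) ≤ t * n := by exact_mod_cast hrt
        have h5 : c * e * n ≤ t * n := by
          calc c * e * n = (c * n) * e := by ring
            _ = (2 * t + n) * e := by rw [hcn]
            _ ≤ _ := h4
        exact h3.trans (le_of_mul_le_mul_right h5 hnr)
      exact_mod_cast h1
    · have h1 : c * ((n : ℝ) * (δ - 1)) ≤ c * ((⌊c * δ⌋₊ : ℝ) * n - 2 * δ * t) :=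
        mul_le_mul_of_nonneg_left hkey.le hc0
      have h2 : c * ((n : ℝ) * (δ - 1)) = (2 * t + n) * (δ - 1) := by rw [← hcn]; ring
      rw [h2] at h1
      refine le_trans ?_ h1
      have h3 : 0 ≤ ((δ : ℝ) - 1) := by linarith
      nlinarith
  obtain ⟨C, hC, hmain⟩ := disj mainU Pool.Agent.W346.PV.Newt.main k d n _ c hd h2dn hnt hRC ε hε
  refine ⟨C, hC, fun N hN => (hmain N hN).trans ?_⟩
  apply mul_le_mul_of_nonneg_left _ hC.le
  apply Real.rpow_le_rpow_of_exponent_le (by exact_mod_cast hN)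
  have hBr : (B : ℝ) = (2 * (d : ℝ) - 1) * t := by
    rw [hB', he]; push_cast; ring
  have h1 : (n : ℝ) + ((k + d : ℕ) : ℝ) / n + c * ((d : ℝ) - 1) = n + (B : ℝ) / n + ((d : ℝ) - 1) := by
    rw [hBr, hc, ← ht]
    field_simp
    ring
  have h2 : (n : ℝ) + (B : ℝ) / n ≤
      Real.sqrt (4 * (2 * (d : ℝ) - 1) * ((k : ℝ) + d) + 1) := by
    apply Real.le_sqrt_of_sq_le
    have h3 : (4 * (2 * (d : ℝ) - 1) * ((k : ℝ) + d) + 1) = 4 * B + 1 := by
      rw [hBr, ht]; push_cast; ring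
    rw [h3]
    have h4 : (B : ℝ) ≤ n * (n + 1) := by exact_mod_cast hn1
    have h5 : (n : ℝ) * (n - 1) ≤ B := by
      have : ((n * (n - 1) : ℕ) : ℝ) ≤ (B : ℝ) := by exact_mod_cast hn2
      rw [Nat.cast_mul, Nat.cast_sub (by omega), Nat.cast_one] at this
      exact this
    have h6 : ((n : ℝ) - (B : ℝ) / n) ^ 2 ≤ 1 := by
      rw [sq_le_one_iff_abs_le_one, abs_le]
      constructor
      · have : (B : ℝ) / n ≤ n + 1 := by
          rw [div_le_iff₀ hnr]; linarith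
        linarith
      · have : (n : ℝ) - 1 ≤ (B : ℝ) / n := by
          rw [le_div_iff₀ hnr]; linarith
        linarith
    have h7 : (n : ℝ) * ((B : ℝ) / n) = B := by field_simp
    nlinarith
  linarith

/-- disjoint solutions, linear range -/
theorem vd_lin (k d : ℕ) (hd : 1 ≤ d) (hk : 8 * d ≤ k) :
    ∃ C : ℝ, 0 < C ∧ ∀ N : ℕ, 1 ≤ N → ((VD (k + d) k N).card : ℝ) ≤
      C * (N : ℝ) ^ (((k : ℝ) + d) - 1) := by
  set t : ℕ := k + d with ht
  have ht9 : 9 * d ≤ t := by omega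
  set n : ℕ := t / 2 + 1 with hn
  have hnr : (0 : ℝ) < n := by positivity
  have hnlow : t + 1 ≤ 2 * n := by omega
  have hnup : 2 * n ≤ t + 2 := by omega
  have hnlow' : (t : ℝ) + 1 ≤ 2 * n := by exact_mod_cast hnlow
  have hnup' : 2 * (n : ℝ) ≤ t + 2 := by exact_mod_cast hnup
  have htr : (0 : ℝ) ≤ t := by positivity
  have hRC : RC d n t (fun δ => 9 * δ / 2) (9 / 2) := by
    refine ⟨by norm_num, ?_⟩
    intro δ hδ hδd
    have h1 : 4 * δ ≤ 9 * δ / 2 := by omega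
    have h2 : 9 * δ ≤ 2 * (9 * δ / 2) + 1 := by omega
    have h3 : 2 * (9 * δ / 2) ≤ 9 * δ := by omega
    have h2' : 9 * (δ : ℝ) ≤ 2 * ((9 * δ / 2 : ℕ) : ℝ) + 1 := by exact_mod_cast h2
    have h3' : 2 * ((9 * δ / 2 : ℕ) : ℝ) ≤ 9 * (δ : ℝ) := by exact_mod_cast h3
    have hδr : (1 : ℝ) ≤ δ := by exact_mod_cast hδ
    refine ⟨?_, ?_, ?_, ?_⟩
    · show 2 * δ * t < 9 * δ / 2 * n
      have h4 : 4 * δ * (t + 1) ≤ 9 * δ / 2 * (2 * n) := Nat.mul_le_mul h1 hnlow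
      nlinarith
    · show 9 * δ / 2 ≤ t
      omega
    · show ((9 * δ / 2 : ℕ) : ℝ) ≤ 9 / 2 * δ
      linarith
    · show ((δ : ℝ) - 1) * t ≤ 9 / 2 * (((9 * δ / 2 : ℕ) : ℝ) * n - 2 * δ * t)
      set q : ℝ := ((9 * δ / 2 : ℕ) : ℝ) with hq
      have hq0 : (9 * (δ : ℝ) - 1) / 2 ≤ q := by linarith
      have h5 : (9 * (δ : ℝ) - 1) / 2 * (((t : ℝ) + 1) / 2) ≤ q * n := by
        apply mul_le_mul hq0 (by linarith) (by positivity)
        have : (0 : ℝ) ≤ (9 * (δ : ℝ) - 1) / 2 := by linarith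
        linarith
      have h6 : 0 ≤ ((δ : ℝ) - 1) * t := mul_nonneg (by linarith) htr
      nlinarith
  obtain ⟨C, hC, hmain⟩ := disj mainU Pool.Agent.W346.PV.Newt.main k d n _ (9 / 2) hd (by omega)
    (by omega) hRC (1 / 2) (by norm_num)
  refine ⟨C, hC, fun N hN => (hmain N hN).trans ?_⟩
  apply mul_le_mul_of_nonneg_left _ hC.le
  apply Real.rpow_le_rpow_of_exponent_le (by exact_mod_cast hN)
  have h1 : ((k + d : ℕ) : ℝ) / n ≤ 2 := by
    rw [div_le_iff₀ hnr, ← ht]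
    linarith
  have h2 : (9 : ℝ) * d ≤ t := by exact_mod_cast ht9
  have h3 : (t : ℝ) = (k : ℝ) + d := by rw [ht]; push_cast; ring
  rw [h3] at h2 hnup'
  linarith

/-- disjoint solutions, slightly wider linear range -/
theorem vd_lin2 (k d : ℕ) (hd : 1 ≤ d) (hk : 8 * d ≤ k + 3) :
    ∃ C : ℝ, 0 < C ∧ ∀ N : ℕ, 1 ≤ N → ((VD (k + d) k N).card : ℝ) ≤
      C * (N : ℝ) ^ ((k : ℝ) + d) := by
  set t : ℕ := k + d with ht
  have ht9 : 9 * d ≤ t + 3 := by omega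
  set n : ℕ := t / 2 + 1 with hn
  have hnr : (0 : ℝ) < n := by positivity
  have hnlow : t + 1 ≤ 2 * n := by omega
  have hnup : 2 * n ≤ t + 2 := by omega
  have hnlow' : (t : ℝ) + 1 ≤ 2 * n := by exact_mod_cast hnlow
  have hnup' : 2 * (n : ℝ) ≤ t + 2 := by exact_mod_cast hnup
  have htr : (0 : ℝ) ≤ t := by positivity
  have hRC : RC d n t (fun δ => 9 * δ / 2) (9 / 2) := by
    refine ⟨by norm_num, ?_⟩
    intro δ hδ hδd
    have h1 : 4 * δ ≤ 9 * δ / 2 := by omega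
    have h2 : 9 * δ ≤ 2 * (9 * δ / 2) + 1 := by omega
    have h3 : 2 * (9 * δ / 2) ≤ 9 * δ := by omega
    have h2' : 9 * (δ : ℝ) ≤ 2 * ((9 * δ / 2 : ℕ) : ℝ) + 1 := by exact_mod_cast h2
    have h3' : 2 * ((9 * δ / 2 : ℕ) : ℝ) ≤ 9 * (δ : ℝ) := by exact_mod_cast h3
    have hδr : (1 : ℝ) ≤ δ := by exact_mod_cast hδ
    refine ⟨?_, ?_, ?_, ?_⟩
    · show 2 * δ * t < 9 * δ / 2 * n
      have h4 : 4 * δ * (t + 1) ≤ 9 * δ / 2 * (2 * n) := Nat.mul_le_mul h1 hnlow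
      nlinarith
    · show 9 * δ / 2 ≤ t
      omega
    · show ((9 * δ / 2 : ℕ) : ℝ) ≤ 9 / 2 * δ
      linarith
    · show ((δ : ℝ) - 1) * t ≤ 9 / 2 * (((9 * δ / 2 : ℕ) : ℝ) * n - 2 * δ * t)
      set q : ℝ := ((9 * δ / 2 : ℕ) : ℝ) with hq
      have hq0 : (9 * (δ : ℝ) - 1) / 2 ≤ q := by linarith
      have h5 : (9 * (δ : ℝ) - 1) / 2 * (((t : ℝ) + 1) / 2) ≤ q * n := by
        apply mul_le_mul hq0 (by linarith) (by positivity)
        have : (0 : ℝ) ≤ (9 * (δ : ℝ) - 1) / 2 := by linarith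
        linarith
      have h6 : 0 ≤ ((δ : ℝ) - 1) * t := mul_nonneg (by linarith) htr
      nlinarith
  obtain ⟨C, hC, hmain⟩ := disj mainU Pool.Agent.W346.PV.Newt.main k d n _ (9 / 2) hd (by omega)
    (by omega) hRC (2 / ((t : ℝ) + 1)) (by positivity)
  refine ⟨C, hC, fun N hN => (hmain N hN).trans ?_⟩
  apply mul_le_mul_of_nonneg_left _ hC.le
  apply Real.rpow_le_rpow_of_exponent_le (by exact_mod_cast hN)
  have h1 : ((k + d : ℕ) : ℝ) / n ≤ 2 - 2 / ((t : ℝ) + 1) := by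
    rw [← ht, div_le_iff₀ hnr]
    have h5 : (2 - 2 / ((t : ℝ) + 1)) * ((t + 1) / 2) = t := by field_simp; ring
    have h6 : (0 : ℝ) ≤ 2 - 2 / ((t : ℝ) + 1) := by
      have : 2 / ((t : ℝ) + 1) ≤ 2 := by
        rw [div_le_iff₀ (by positivity)]; linarith
      linarith
    have h7 : ((t : ℝ) + 1) / 2 ≤ n := by linarith
    have h8 := mul_le_mul_of_nonneg_left h7 h6
    linarith
  have h2 : (9 : ℝ) * d ≤ t + 3 := by exact_mod_cast ht9
  have h3 : (t : ℝ) = (k : ℝ) + d := by rw [ht]; push_cast; ring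
  rw [← h3]
  linarith

/-- from disjoint solutions to non-diagonal solutions -/
theorem vn_bound (hR : REDStm) (s k : ℕ) (Θ : ℝ)
    (h : ∀ d : ℕ, 1 ≤ d → k + d ≤ s → ∃ C : ℝ, 0 < C ∧ ∀ N : ℕ, 1 ≤ N →
      ((VD (k + d) k N).card : ℝ) ≤ C * (N : ℝ) ^ (Θ - ((s : ℝ) - ((k : ℝ) + d)))) :
    ∃ C : ℝ, 0 ≤ C ∧ ∀ N : ℕ, 1 ≤ N → ((VN s k N).card : ℝ) ≤ C * (N : ℝ) ^ Θ := by
  classical
  obtain ⟨C1, hC1, h1⟩ := hR s k
  have h2 : ∀ t ∈ Finset.Ioc k s, ∃ C : ℝ, 0 < C ∧ ∀ N : ℕ, 1 ≤ N →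
      ((VD t k N).card : ℝ) ≤ C * (N : ℝ) ^ (Θ - ((s : ℝ) - t)) := by
    intro t ht
    rw [Finset.mem_Ioc] at ht
    obtain ⟨d, hd⟩ : ∃ d, t = k + d := ⟨t - k, by omega⟩
    subst hd
    obtain ⟨C, hC, hh⟩ := h d (by omega) ht.2
    refine ⟨C, hC, fun N hN => ?_⟩
    have := hh N hN
    push_cast
    exact this
  choose! C2 hC2 h3 using h2
  set C3 : ℝ := C1 * ∑ t ∈ Finset.Ioc k s, C2 t with hC3
  have hC3' : 0 ≤ C3 := mul_nonneg hC1.le (Finset.sum_nonneg (fun t ht => (hC2 t ht).le))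
  refine ⟨C3, hC3', fun N hN => ?_⟩
  have hN0 : (0 : ℝ) < N := by positivity
  refine le_trans (h1 N hN) ?_
  rw [hC3, mul_assoc]
  apply mul_le_mul_of_nonneg_left _ hC1.le
  rw [Finset.sum_mul]
  apply Finset.sum_le_sum
  intro t ht
  have hts : t ≤ s := (Finset.mem_Ioc.1 ht).2
  calc (N : ℝ) ^ (s - t) * ((VD t k N).card : ℝ)
      ≤ (N : ℝ) ^ (s - t) * (C2 t * (N : ℝ) ^ (Θ - ((s : ℝ) - t))) :=
        mul_le_mul_of_nonneg_left (h3 t ht N hN) (by positivity)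
    _ = C2 t * ((N : ℝ) ^ (s - t) * (N : ℝ) ^ (Θ - ((s : ℝ) - t))) := by ring
    _ = C2 t * (N : ℝ) ^ Θ := by
        rw [← Real.rpow_natCast (N : ℝ) (s - t), ← Real.rpow_add hN0, Nat.cast_sub hts]
        congr 2
        ring

theorem nondiag_sqrt (s k : ℕ) (hks : k < s) (h3 : 3 * (s - k) ≤ k) (ε : ℝ) (hε : 0 < ε) :
    ∃ C : ℝ, 0 ≤ C ∧ ∀ N : ℕ, 1 ≤ N → ((VN s k N).card : ℝ) ≤ C * (N : ℝ) ^
      (Real.sqrt (4 * (2 * ((s : ℝ) - k) - 1) * s + 1) + ((s : ℝ) - k - 1) + ε) := by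
  apply vn_bound (Pool.Agent.W156.PVRED.main Pool.Agent.W346.PV.Newt.main)
  intro d hd hds
  obtain ⟨C, hC, h⟩ := vd_sqrt k d hd (by omega) ε hε
  refine ⟨C, hC, fun N hN => (h N hN).trans ?_⟩
  apply mul_le_mul_of_nonneg_left _ hC.le
  apply Real.rpow_le_rpow_of_exponent_le (by exact_mod_cast hN)
  have hds' : (k : ℝ) + d ≤ s := by exact_mod_cast hds
  have hd' : (1 : ℝ) ≤ d := by exact_mod_cast hd
  have hk0 : (0 : ℝ) ≤ k := by positivity
  have h4 : Real.sqrt (4 * (2 * (d : ℝ) - 1) * ((k : ℝ) + d) + 1) ≤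
      Real.sqrt (4 * (2 * ((s : ℝ) - k) - 1) * s + 1) := by
    apply Real.sqrt_le_sqrt
    have h5 : (2 * (d : ℝ) - 1) * ((k : ℝ) + d) ≤ (2 * ((s : ℝ) - k) - 1) * s := by
      apply mul_le_mul (by linarith) hds' (by positivity) (by linarith)
    linarith
  linarith

theorem nondiag_lin (s k : ℕ) (hks : k < s) (h8 : 8 * (s - k) ≤ k) :
    ∃ C : ℝ, 0 ≤ C ∧ ∀ N : ℕ, 1 ≤ N → ((VN s k N).card : ℝ) ≤ C * (N : ℝ) ^ (s - 1) := by
  obtain ⟨C, hC, h⟩ := vn_bound (Pool.Agent.W156.PVRED.main Pool.Agent.W346.PV.Newt.main) s k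
    ((s : ℝ) - 1) (by
      intro d hd hds
      obtain ⟨C, hC, h⟩ := vd_lin k d hd (by omega)
      refine ⟨C, hC, fun N hN => (h N hN).trans (le_of_eq ?_)⟩
      congr 2
      ring)
  refine ⟨C, hC, fun N hN => (h N hN).trans (le_of_eq ?_)⟩
  rw [← Real.rpow_natCast, Nat.cast_sub (by omega)]
  push_cast
  rfl

theorem nondiag_lin2 (s k : ℕ) (hks : k < s) (h8 : 8 * (s - k) ≤ k + 3) :
    ∃ C : ℝ, 0 ≤ C ∧ ∀ N : ℕ, 1 ≤ N → ((VN s k N).card : ℝ) ≤ C * (N : ℝ) ^ s := by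
  obtain ⟨C, hC, h⟩ := vn_bound (Pool.Agent.W156.PVRED.main Pool.Agent.W346.PV.Newt.main) s k
    (s : ℝ) (by
      intro d hd hds
      obtain ⟨C, hC, h⟩ := vd_lin2 k d hd (by omega)
      refine ⟨C, hC, fun N hN => (h N hN).trans (le_of_eq ?_)⟩
      congr 2
      ring)
  refine ⟨C, hC, fun N hN => (h N hN).trans (le_of_eq ?_)⟩
  rw [← Real.rpow_natCast]

open scoped Classical in
lemma split_VS (s k N : ℕ) : (VS s k N).card = (VN s k N).card +
      (((Fintype.piFinset fun _ : Fin s => Finset.Icc 1 N) ×ˢ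
        (Fintype.piFinset fun _ : Fin s => Finset.Icc 1 N)).filter
      (fun p : (Fin s → ℕ) × (Fin s → ℕ) => ∃ σ : Equiv.Perm (Fin s), p.2 = p.1 ∘ σ)).card := by
  have e1 : ((Fintype.piFinset fun _ : Fin s => Finset.Icc 1 N) ×ˢ
      (Fintype.piFinset fun _ : Fin s => Finset.Icc 1 N)).filter
    (fun p : (Fin s → ℕ) × (Fin s → ℕ) => ∃ σ : Equiv.Perm (Fin s), p.2 = p.1 ∘ σ) =
      (VS s k N).filter (fun p => ∃ σ : Equiv.Perm (Fin s), p.2 = p.1 ∘ σ) := by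
    ext p
    simp only [VS, Finset.mem_filter]
    constructor
    · rintro ⟨hp, σ, hσ⟩
      refine ⟨⟨hp, fun j => ?_⟩, σ, hσ⟩
      rw [hσ]
      exact (Equiv.sum_comp σ (fun i => p.1 i ^ (j.val + 1))).symm
    · rintro ⟨⟨hp, -⟩, hσ⟩
      exact ⟨hp, hσ⟩
  rw [e1, VN, add_comm]
  convert (Finset.card_filter_add_card_filter_not (s := VS s k N)
    (fun p => ∃ σ : Equiv.Perm (Fin s), p.2 = p.1 ∘ σ)).symm

/-- the bound asked for -/
theorem upper (s k : ℕ) (hks : k < s) (h8 : 8 * (s - k) ≤ k + 3) :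
    ∃ C : ℝ, ∀ N : ℕ, 1 ≤ N → ((VS s k N).card : ℝ) ≤ C * (N : ℝ) ^ s := by
  classical
  obtain ⟨C3, hC3, h6⟩ := nondiag_lin2 s k hks h8
  obtain ⟨C4, hC4, h4⟩ := Pool.Agent.W346.PV.Diag.main s (by omega)
  refine ⟨C3 + (s.factorial + C4), fun N hN => ?_⟩
  have hN1 : (1 : ℝ) ≤ N := by exact_mod_cast hN
  have h5 := h4 N hN
  have h6' := h6 N hN
  rw [split_VS s k N]
  push_cast
  have h7 : (N : ℝ) ^ (s - 1) ≤ (N : ℝ) ^ s := pow_le_pow_right₀ hN1 (by omega)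
  rw [abs_le] at h5
  nlinarith [h5.1, h5.2]

theorem asym (s k : ℕ) (hks : k < s) (h8 : 8 * (s - k) ≤ k) :
    ∃ C : ℝ, ∀ N : ℕ, 1 ≤ N →
      |((VS s k N).card : ℝ) - (s.factorial : ℝ) * (N : ℝ) ^ s| ≤ C * (N : ℝ) ^ (s - 1) := by
  classical
  obtain ⟨C3, hC3, h6⟩ := nondiag_lin s k hks h8
  obtain ⟨C4, hC4, h4⟩ := Pool.Agent.W346.PV.Diag.main s (by omega)
  refine ⟨C3 + C4, fun N hN => ?_⟩
  have hN0 : (0 : ℝ) < N := by positivity
  have hsplit := split_VS s k N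
  have h5 := h4 N hN
  have h6' := h6 N hN
  rw [hsplit]
  push_cast
  have h7 : (0 : ℝ) ≤ ((VN s k N).card : ℝ) := by positivity
  rw [abs_le] at h5 ⊢
  constructor
  · nlinarith [h5.1, h5.2]
  · nlinarith [h5.1, h5.2]

end Pool.Agent.TH900.VPS
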