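import Pool.Agent.TH900.VPS.Uniq
import Pool.Agent.W505.PV.Vinf

/-! Few value vectors, for the reduced threshold. -/

set_option autoImplicit false

namespace Pool.Agent.TH900.VPS

open Polynomial
open Pool.Agent.W89.VP
open Pool.Agent.W505.PV.VF (wf wf_mul_vf vf_pos)

/-- The value vectors determined (up to few choices) by divisors of the `α_j`, with the reduced threshold. -/
def UV (d n s N : ℕ) (y α F : Fin n → ℕ) : Prop :=
  ∃ π : ℤ[X], Irreducible π ∧ 1 ≤ π.natDegree ∧ π.natDegree < d ∧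
    (∀ j, F j = (π.eval (y j : ℤ)).natAbs) ∧ (∀ j, 1 ≤ F j ∧ F j ≤ N ^ s) ∧
    ∃ p : Fin n → ℕ, (∀ j, p j ∣ α j) ∧ (∀ j, Nat.Coprime (p j) (Vd y)) ∧ (∀ j, p j ∣ F j) ∧
      Ta n π.natDegree N (fun j => vf (Vd y) (F j)) < ∏ j, (p j : ℝ)

/-- The value vector `F` belongs to the data `t = (δ, p, l, u)`. -/
def Rel (n s N : ℕ) (y : Fin n → ℕ) (F : Fin n → ℕ)
    (t : ℕ × (Fin n → ℕ) × (Fin n → ℕ) × (Fin n → ℕ)) : Prop :=
  ∃ π : ℤ[X], Irreducible π ∧ 1 ≤ π.natDegree ∧ π.natDegree = t.1 ∧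
    (∀ j, F j = (π.eval (y j : ℤ)).natAbs) ∧ (∀ j, 1 ≤ F j ∧ F j ≤ N ^ s) ∧
    (∀ j, Nat.Coprime (t.2.1 j) (Vd y)) ∧ (∀ j, t.2.1 j ∣ F j) ∧
      Ta n π.natDegree N (fun j => vf (Vd y) (F j)) < ∏ j, (t.2.1 j : ℝ) ∧
      (∀ j, Nat.log 2 (F j) = t.2.2.1 j) ∧ ∀ j, wf (Vd y) (F j) = t.2.2.2 j

theorem rel_uniq (hU : UNIQ') {d n s N : ℕ} (hdn : 2 * d ≤ n) {y : Fin n → ℕ}
    (hy : Good n N y) {F F' : Fin n → ℕ} {t : ℕ × (Fin n → ℕ) × (Fin n → ℕ) × (Fin n → ℕ)}
    (ht : t.1 < d) (h : Rel n s N y F t) (h' : Rel n s N y F' t) : F = F' := by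
  obtain ⟨π, h1, h2, h3, h4, h5, h6, h7, h8, h9, h10⟩ := h
  obtain ⟨π', g1, g2, g3, g4, g5, g6, g7, g8, g9, g10⟩ := h'
  refine hU n t.1 N (h3 ▸ h2) (by omega) y hy π π' h1 g1 h3 g3 F F' h4 g4 (fun j => (h5 j).1)
    (fun j => (g5 j).1) (fun j => ?_) (fun j => (h10 j).trans (g10 j).symm) t.2.1 h6 h7 g7 (h3 ▸ h8)
  have e1 : F' j < 2 ^ (Nat.log 2 (F' j) + 1) := Nat.lt_pow_succ_log_self (by norm_num) _
  have e2 : 2 ^ Nat.log 2 (F j) ≤ F j := Nat.pow_log_le_self 2 (by have := (h5 j).1; omega)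
  rw [g9 j, pow_succ] at e1
  rw [h9 j] at e2
  omega

lemma ds_le' {u v N : ℕ} (hu : 1 ≤ u ∧ u ≤ N) (hv : 1 ≤ v ∧ v ≤ N) : ds u v ≤ N := by
  unfold ds
  omega

lemma ds_pos' {u v : ℕ} (h : v ≠ u) : 1 ≤ ds u v := by
  unfold ds
  omega

lemma Vd_pos' {n : ℕ} {y : Fin n → ℕ} (hy : Function.Injective y) : 1 ≤ Vd y := by
  unfold Vd
  apply Nat.one_le_iff_ne_zero.2
  apply Finset.prod_ne_zero_iff.2
  intro i _
  apply Finset.prod_ne_zero_iff.2
  intro j hj
  have hij : i < j := (Finset.mem_filter.1 hj).2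
  have : y j ≠ y i := fun h => (ne_of_gt hij) (hy h)
  have := ds_pos' this
  omega

lemma Vd_le {n N : ℕ} (hN : 1 ≤ N) {y : Fin n → ℕ} (hy : Good n N y) : Vd y ≤ N ^ (n * n) := by
  unfold Vd
  calc ∏ i : Fin n, ∏ j ∈ Finset.univ.filter (fun j : Fin n => i < j), ds (y i) (y j)
      ≤ ∏ _i : Fin n, N ^ n := by
        refine Finset.prod_le_prod' fun i _ => ?_
        calc ∏ j ∈ Finset.univ.filter (fun j : Fin n => i < j), ds (y i) (y j)
            ≤ ∏ j ∈ Finset.univ.filter (fun j : Fin n => i < j), N :=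
              Finset.prod_le_prod' fun j _ => ds_le' (hy.2 i) (hy.2 j)
          _ = N ^ (Finset.univ.filter (fun j : Fin n => i < j)).card := by simp
          _ ≤ N ^ n := Nat.pow_le_pow_right hN (by
              simpa using Finset.card_le_univ (Finset.univ.filter (fun j : Fin n => i < j)))
    _ = N ^ (n * n) := by simp [← pow_mul]

def CARDU' : Prop := ∀ d n s : ℕ, 1 ≤ s → 2 * d ≤ n → ∀ ε : ℝ, 0 < ε → ∃ C : ℝ, 0 < C ∧ ∀ N : ℕ, 1 ≤ N →
  ∀ y : Fin n → ℕ, Good n N y → ∀ α : Fin n → ℕ, (∀ j, 1 ≤ α j ∧ α j ≤ N ^ s) →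
    ∃ 𝓕 : Finset (Fin n → ℕ), (∀ F, UV d n s N y α F → F ∈ 𝓕) ∧ (𝓕.card : ℝ) ≤ C * (N : ℝ) ^ ε

theorem cardu' (hU : UNIQ') (hD : DIVStm) (hV : VINFStm) : CARDU' := by
  intro d n s hs hdn ε hε
  classical
  set ε1 : ℝ := ε / (3 * (n * s + 1)) with hε1
  set η : ℝ := ε / (3 * (n + 1)) with hη
  have hε1p : 0 < ε1 := by positivity
  have hηp : 0 < η := by positivity
  obtain ⟨C1, hC1, hdiv⟩ := hD ε1 hε1p
  obtain ⟨C3, hC3, hvinf⟩ := hV (n * n) ε1 hε1p
  set C2 : ℝ := 1 + s / (Real.log 2 * η) with hC2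
  have hl2 : 0 < Real.log 2 := Real.log_pos (by norm_num)
  have hC2p : 0 < C2 := by positivity
  refine ⟨(d + 1) * C1 ^ n * C2 ^ n * C3 ^ n, by positivity, fun N hN y hy α hα => ?_⟩
  set B : ℕ := Nat.log 2 (N ^ s) + 1 with hB
  set Wset : Finset ℕ := (Finset.Icc 1 (N ^ s)).filter (fun u => ∀ p ∈ u.primeFactors, p ∣ Vd y)
    with hWset
  set Θ : Finset (ℕ × (Fin n → ℕ) × (Fin n → ℕ) × (Fin n → ℕ)) := Finset.range d ×ˢ
    (Fintype.piFinset (fun j => (α j).divisors) ×ˢ (Fintype.piFinset (fun _ => Finset.range B) ×ˢ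
      Fintype.piFinset (fun _ => Wset)))
    with hΘ
  set φ : ℕ × (Fin n → ℕ) × (Fin n → ℕ) × (Fin n → ℕ) → (Fin n → ℕ) := fun t =>
    if h : ∃ F, Rel n s N y F t then h.choose else 0 with hφ
  refine ⟨Θ.image φ, ?_, ?_⟩
  · intro F hF
    obtain ⟨π, h1, h2, h3, h4, h5, p, h6, h7, h8, h9⟩ := hF
    set t : ℕ × (Fin n → ℕ) × (Fin n → ℕ) × (Fin n → ℕ) :=
      (π.natDegree, p, fun j => Nat.log 2 (F j), fun j => wf (Vd y) (F j)) with ht
    have hR : Rel n s N y F t := ⟨π, h1, h2, rfl, h4, h5, h7, h8, h9, fun j => rfl, fun j => rfl⟩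
    have hex : ∃ F, Rel n s N y F t := ⟨F, hR⟩
    rw [Finset.mem_image]
    refine ⟨t, ?_, ?_⟩
    · rw [hΘ, Finset.mem_product, Finset.mem_product, Finset.mem_product, Finset.mem_range,
        Fintype.mem_piFinset, Fintype.mem_piFinset, Fintype.mem_piFinset]
      refine ⟨h3, fun j => ?_, fun j => ?_, fun j => ?_⟩
      · rw [Nat.mem_divisors]
        exact ⟨h6 j, by have := (hα j).1; omega⟩
      · rw [Finset.mem_range, hB]
        have h10 : Nat.log 2 (F j) ≤ Nat.log 2 (N ^ s) := Nat.log_mono_right (h5 j).2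
        change Nat.log 2 (F j) < Nat.log 2 (N ^ s) + 1
        omega
      · rw [hWset, Finset.mem_filter, Finset.mem_Icc]
        refine ⟨⟨wf_pos _ _, ?_⟩, ?_⟩
        · exact (Nat.le_of_dvd (h5 j).1 (wf_dvd _ _ (h5 j).1)).trans (h5 j).2
        · intro p hp
          exact prime_dvd_wf (Nat.prime_of_mem_primeFactors hp) (Nat.dvd_of_mem_primeFactors hp)
    · simp only [hφ]
      rw [dif_pos hex]
      exact rel_uniq hU hdn hy h3 hex.choose_spec hR
  · have hNR : (1 : ℝ) ≤ N := by exact_mod_cast hN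
    have hN0 : (0 : ℝ) ≤ N := by linarith
    have hcard : ((Θ.image φ).card : ℝ) ≤ d * ((∏ j, ((α j).divisors.card : ℝ)) *
        ((B : ℝ) ^ n * (Wset.card : ℝ) ^ n)) := by
      have h1 : (Θ.image φ).card ≤ Θ.card := Finset.card_image_le
      have h2 : Θ.card = d * ((∏ j, (α j).divisors.card) * (B ^ n * Wset.card ^ n)) := by
        rw [hΘ, Finset.card_product, Finset.card_product, Finset.card_product, Finset.card_range,
          Fintype.card_piFinset, Fintype.card_piFinset, Fintype.card_piFinset]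
        simp
      rw [h2] at h1
      exact_mod_cast h1
    have hns : (n : ℝ) * (s * ε1) ≤ ε / 3 := by
      rw [hε1]
      have h3 : (0 : ℝ) ≤ (n : ℝ) * s := by positivity
      have h4 : (n : ℝ) * (s * (ε / (3 * (n * s + 1)))) = (n * s) * ε / (3 * (n * s + 1)) := by
        ring
      rw [h4, div_le_div_iff₀ (by positivity) (by norm_num)]
      nlinarith
    have hp1 : ∏ j, ((α j).divisors.card : ℝ) ≤ C1 ^ n * (N : ℝ) ^ (ε / 3) := by
      calc ∏ j, ((α j).divisors.card : ℝ) ≤ ∏ _j : Fin n, (C1 * (N : ℝ) ^ (s * ε1)) := by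
            refine Finset.prod_le_prod (fun j _ => Nat.cast_nonneg _) fun j _ => ?_
            refine (hdiv (α j) (hα j).1).trans ?_
            refine mul_le_mul_of_nonneg_left ?_ hC1.le
            rw [Real.rpow_mul hN0, Real.rpow_natCast]
            refine Real.rpow_le_rpow (Nat.cast_nonneg _) ?_ hε1p.le
            exact_mod_cast (hα j).2
        _ = C1 ^ n * (N : ℝ) ^ (n * (s * ε1)) := by
            rw [Finset.prod_const, Finset.card_univ, Fintype.card_fin, mul_pow,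
              ← Real.rpow_natCast ((N : ℝ) ^ (s * ε1)) n, ← Real.rpow_mul hN0]
            congr 2
            ring
        _ ≤ C1 ^ n * (N : ℝ) ^ (ε / 3) := by
            refine mul_le_mul_of_nonneg_left (Real.rpow_le_rpow_of_exponent_le hNR hns)
              (by positivity)
    have hW1 : (Wset.card : ℝ) ≤ C3 * (N : ℝ) ^ (s * ε1) := by
      have hVN : Vd y ≤ (N ^ s) ^ (n * n) := by
        refine (Vd_le hN hy).trans ?_
        refine Nat.pow_le_pow_left ?_ _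
        calc N = N ^ 1 := (pow_one N).symm
          _ ≤ N ^ s := Nat.pow_le_pow_right hN hs
      have := hvinf (N ^ s) (Vd y) (Nat.one_le_pow _ _ hN) (Vd_pos' hy.1) hVN
      refine this.trans (le_of_eq ?_)
      rw [Real.rpow_mul hN0, Real.rpow_natCast]
      push_cast
      rfl
    have hW2 : (Wset.card : ℝ) ^ n ≤ C3 ^ n * (N : ℝ) ^ (ε / 3) := by
      calc (Wset.card : ℝ) ^ n ≤ (C3 * (N : ℝ) ^ (s * ε1)) ^ n :=
            pow_le_pow_left₀ (Nat.cast_nonneg _) hW1 n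
        _ = C3 ^ n * (N : ℝ) ^ (n * (s * ε1)) := by
            rw [mul_pow, ← Real.rpow_natCast ((N : ℝ) ^ (s * ε1)) n, ← Real.rpow_mul hN0]
            congr 2
            ring
        _ ≤ C3 ^ n * (N : ℝ) ^ (ε / 3) := by
            refine mul_le_mul_of_nonneg_left (Real.rpow_le_rpow_of_exponent_le hNR hns)
              (by positivity)
    have hB1 : (B : ℝ) ≤ C2 * (N : ℝ) ^ η := by
      have h1 : ((Nat.log 2 (N ^ s) : ℕ) : ℝ) ≤ s * (Real.log N / Real.log 2) := by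
        have h2 : 2 ^ Nat.log 2 (N ^ s) ≤ N ^ s :=
          Nat.pow_log_le_self 2 (pow_ne_zero _ (by omega))
        have h3 : (2 : ℝ) ^ Nat.log 2 (N ^ s) ≤ (N : ℝ) ^ s := by exact_mod_cast h2
        have h4 := Real.log_le_log (by positivity) h3
        rw [Real.log_pow, Real.log_pow] at h4
        rw [← mul_div_assoc, le_div_iff₀ hl2]
        exact h4
      have h5 : Real.log N ≤ (N : ℝ) ^ η / η := Real.log_le_rpow_div hN0 hηp
      have h6 : (1 : ℝ) ≤ (N : ℝ) ^ η := Real.one_le_rpow hNR hηp.le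
      have h7 : (B : ℝ) = (Nat.log 2 (N ^ s) : ℕ) + 1 := by
        rw [hB]
        push_cast
        rfl
      rw [h7, hC2]
      have h8 : s * (Real.log N / Real.log 2) ≤ s / (Real.log 2 * η) * (N : ℝ) ^ η := by
        calc s * (Real.log N / Real.log 2) ≤ s * (((N : ℝ) ^ η / η) / Real.log 2) := by gcongr
          _ = s / (Real.log 2 * η) * (N : ℝ) ^ η := by
            field_simp
      nlinarith
    have hp2 : (B : ℝ) ^ n ≤ C2 ^ n * (N : ℝ) ^ (ε / 3) := by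
      calc (B : ℝ) ^ n ≤ (C2 * (N : ℝ) ^ η) ^ n := pow_le_pow_left₀ (Nat.cast_nonneg _) hB1 n
        _ = C2 ^ n * (N : ℝ) ^ (η * n) := by
            rw [mul_pow, ← Real.rpow_natCast ((N : ℝ) ^ η) n, ← Real.rpow_mul hN0]
        _ ≤ C2 ^ n * (N : ℝ) ^ (ε / 3) := by
            refine mul_le_mul_of_nonneg_left (Real.rpow_le_rpow_of_exponent_le hNR ?_)
              (by positivity)
            rw [hη, div_mul_eq_mul_div, div_le_div_iff₀ (by positivity) (by norm_num)]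
            nlinarith
    calc ((Θ.image φ).card : ℝ) ≤ d * ((∏ j, ((α j).divisors.card : ℝ)) *
          ((B : ℝ) ^ n * (Wset.card : ℝ) ^ n)) := hcard
      _ ≤ d * ((C1 ^ n * (N : ℝ) ^ (ε / 3)) * ((C2 ^ n * (N : ℝ) ^ (ε / 3)) *
          (C3 ^ n * (N : ℝ) ^ (ε / 3)))) := by gcongr
      _ = (d * C1 ^ n * C2 ^ n * C3 ^ n) * (N : ℝ) ^ ε := by
          have h1 : (N : ℝ) ^ ε = (N : ℝ) ^ (ε / 3) * ((N : ℝ) ^ (ε / 3) * (N : ℝ) ^ (ε / 3)) := by
            rw [← Real.rpow_add (by linarith), ← Real.rpow_add (by linarith)]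
            congr 1
            ring
          rw [h1]
          ring
      _ ≤ ((d + 1) * C1 ^ n * C2 ^ n * C3 ^ n) * (N : ℝ) ^ ε := by
          gcongr
          linarith

end Pool.Agent.TH900.VPS
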