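import Pool.Agent.TH900.VPS.Str
import Pool.Agent.W89.VP.Fin

/-! Counting the tuples of `ZS`. -/

set_option autoImplicit false

namespace Pool.Agent.TH900.VPS

open Finset Polynomial
open Pool.Agent.W89.VP
open Pool.Agent.W505.PV.VF (wf wf_mul_vf vf_pos)
open Pool.Agent.W89.VP.FinP (card_le_of_cover divs prods prod_ds_le prod_ds_pos)

/-- counting along a tree -/
lemma tree_card {s B : ℕ} (S : Fin s → (Fin s → ℕ) → Finset ℕ) (T : Finset (Fin s → ℕ))
    (hS : ∀ i, ∀ x ∈ T, ∀ x' ∈ T, (∀ i' < i, x i' = x' i') → S i x = S i x')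
    (hB : ∀ x ∈ T, ∀ i, (S i x).card ≤ B) (hT : ∀ x ∈ T, ∀ i, x i ∈ S i x) : T.card ≤ B ^ s := by
  classical
  have h : T.card ≤ (Fintype.piFinset fun _ : Fin s => Finset.range B).card := by
    apply Finset.card_le_card_of_injOn (fun x i => ((S i x).filter (· < x i)).card)
    · intro x hx
      have hx' : x ∈ T := hx
      show (fun i => ((S i x).filter (· < x i)).card) ∈ (Fintype.piFinset fun _ : Fin s => Finset.range B)
      rw [Fintype.mem_piFinset]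
      intro i
      rw [Finset.mem_range]
      refine lt_of_lt_of_le (Finset.card_lt_card ?_) (hB x hx' i)
      rw [Finset.ssubset_iff_of_subset (Finset.filter_subset _ _)]
      exact ⟨x i, hT x hx' i, by simp⟩
    · intro x hx x' hx' he
      have hx1 : x ∈ T := hx
      have hx2 : x' ∈ T := hx'
      funext i
      induction i using WellFoundedLT.induction with
      | ind i ih =>
        have e1 : S i x = S i x' := hS i x hx1 x' hx2 ih
        have e2 : ((S i x).filter (· < x i)).card = ((S i x').filter (· < x' i)).card := congrFun he i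
        rw [e1] at e2
        have m1 : x i ∈ S i x' := by rw [← e1]; exact hT x hx1 i
        have m2 : x' i ∈ S i x' := hT x' hx2 i
        by_contra hne
        rcases lt_or_gt_of_ne hne with hlt | hlt
        · have : ((S i x').filter (· < x i)).card < ((S i x').filter (· < x' i)).card := by
            apply Finset.card_lt_card
            rw [Finset.ssubset_iff_of_subset (fun u hu => by
              rw [mem_filter] at hu ⊢; exact ⟨hu.1, hu.2.trans hlt⟩)]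
            exact ⟨x i, by rw [mem_filter]; exact ⟨m1, hlt⟩, by simp⟩
          omega
        · have : ((S i x').filter (· < x' i)).card < ((S i x').filter (· < x i)).card := by
            apply Finset.card_lt_card
            rw [Finset.ssubset_iff_of_subset (fun u hu => by
              rw [mem_filter] at hu ⊢; exact ⟨hu.1, hu.2.trans hlt⟩)]
            exact ⟨x' i, by rw [mem_filter]; exact ⟨m2, hlt⟩, by simp⟩
          omega
  refine h.trans (le_of_eq ?_)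
  rw [Fintype.card_piFinset]
  simp

lemma Hp_pos {n s : ℕ} {y : Fin n → ℕ} {x : Fin s → ℕ} (h : ∀ i j, x i ≠ y j) (i : Fin s) :
    1 ≤ Hp y x i := by
  unfold Hp
  exact prod_pos' _ _ (fun i' _ => prod_pos' _ _ (fun j _ => ds_pos' (h i' j)))

lemma Hp_le {n s N : ℕ} (hN : 1 ≤ N) {y : Fin n → ℕ} {x : Fin s → ℕ} (hy : Good n N y)
    (hx : ∀ i, 1 ≤ x i ∧ x i ≤ N) (i : Fin s) : Hp y x i ≤ N ^ (s * n) := by
  unfold Hp
  calc ∏ i' ∈ univ.filter (fun i' : Fin s => i' < i), ∏ j, ds (y j) (x i')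
      ≤ ∏ i' ∈ univ.filter (fun i' : Fin s => i' < i), N ^ n := by
        refine Finset.prod_le_prod' fun i' _ => ?_
        calc ∏ j, ds (y j) (x i') ≤ ∏ _j : Fin n, N :=
              Finset.prod_le_prod' fun j _ => ds_le' (hy.2 j) (hx i')
          _ = N ^ n := by simp
    _ = (N ^ n) ^ (univ.filter (fun i' : Fin s => i' < i)).card := by simp
    _ ≤ (N ^ n) ^ s := Nat.pow_le_pow_right (Nat.one_le_pow _ _ hN) (by
        simpa using Finset.card_le_univ (univ.filter (fun i' : Fin s => i' < i)))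
    _ = N ^ (s * n) := by rw [← pow_mul, mul_comm]

lemma Hp_congr {n s : ℕ} (y : Fin n → ℕ) {x x' : Fin s → ℕ} {i : Fin s}
    (h : ∀ i' < i, x i' = x' i') : Hp y x i = Hp y x' i := by
  unfold Hp
  refine Finset.prod_congr rfl fun i' hi' => ?_
  rw [h i' (Finset.mem_filter.1 hi').2]

/-- tuples all of whose differences with `y j0` are explained by `Q` -/
lemma inner1 (hD : DIVStm) (hVI : VINFStm) (n s L : ℕ) (hs : 1 ≤ s) (e : ℝ) (he : 0 < e) :
    ∃ C : ℝ, 0 < C ∧ ∀ N : ℕ, 1 ≤ N → ∀ y : Fin n → ℕ, Good n N y →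
      ∀ (j0 : Fin n) (Q : ℕ), 1 ≤ Q → Q ≤ N ^ L →
      ∀ T : Finset (Fin s → ℕ), T ⊆ (Fintype.piFinset fun _ : Fin s => Finset.Icc 1 N) →
      (∀ x ∈ T, (∀ i j, x i ≠ y j) ∧ ∀ i, vf (Vd y * Hp y x i) (ds (y j0) (x i)) ∣ Q) →
      (T.card : ℝ) ≤ C * (N : ℝ) ^ e := by
  classical
  have hsr : (0 : ℝ) < s := by exact_mod_cast hs
  have he' : 0 < e / (2 * s) := by positivity
  obtain ⟨C3, hC3, h3⟩ := divs hD L _ he'
  obtain ⟨C4, hC4, h4⟩ := hVI (n * n + s * n) _ he'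
  refine ⟨(2 * C3 * C4) ^ s, by positivity, ?_⟩
  intro N hN y hy j0 Q hQ1 hQN T hT hTx
  have hNr : (1 : ℝ) ≤ N := by exact_mod_cast hN
  have hNp : (0 : ℝ) < N := by linarith
  set B : ℝ := 2 * ((C3 * (N : ℝ) ^ (e / (2 * s))) * (C4 * (N : ℝ) ^ (e / (2 * s)))) with hB
  have hB0 : 0 ≤ B := by positivity
  let W : Fin s → (Fin s → ℕ) → Finset ℕ := fun i x =>
    (Finset.Icc 1 N).filter (fun u => ∀ p ∈ u.primeFactors, p ∣ Vd y * Hp y x i)
  let S : Fin s → (Fin s → ℕ) → Finset ℕ := fun i x =>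
    ((Q.divisors ×ˢ W i x).image (fun t => y j0 + t.2 * t.1)) ∪
      ((Q.divisors ×ˢ W i x).image (fun t => y j0 - t.2 * t.1))
  have hxN : ∀ x ∈ T, ∀ i, 1 ≤ x i ∧ x i ≤ N := fun x hx i =>
    Finset.mem_Icc.1 (Fintype.mem_piFinset.1 (hT hx) i)
  have hWc : ∀ x ∈ T, ∀ i, ((W i x).card : ℝ) ≤ C4 * (N : ℝ) ^ (e / (2 * s)) := by
    intro x hx i
    have h1 := Hp_pos (hTx x hx).1 i
    have h2 := Hp_le hN hy (hxN x hx) i
    refine h4 N (Vd y * Hp y x i) hN (Nat.mul_pos (Vd_pos' hy.1) h1) ?_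
    rw [pow_add]
    exact Nat.mul_le_mul (Vd_le hN hy) h2
  have hQc : ((Q.divisors.card : ℕ) : ℝ) ≤ C3 * (N : ℝ) ^ (e / (2 * s)) := h3 N hN Q hQ1 hQN
  have hSc : ∀ x ∈ T, ∀ i, (S i x).card ≤ ⌊B⌋₊ := by
    intro x hx i
    apply Nat.le_floor
    have h1 : (S i x).card ≤ 2 * (Q.divisors.card * (W i x).card) := by
      refine (Finset.card_union_le _ _).trans ?_
      have h2 := Finset.card_image_le (s := Q.divisors ×ˢ W i x) (f := fun t => y j0 + t.2 * t.1)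
      have h3 := Finset.card_image_le (s := Q.divisors ×ˢ W i x) (f := fun t => y j0 - t.2 * t.1)
      rw [Finset.card_product] at h2 h3
      omega
    calc ((S i x).card : ℝ) ≤ 2 * ((Q.divisors.card : ℝ) * ((W i x).card : ℝ)) := by exact_mod_cast h1
      _ ≤ B := by
        rw [hB]
        have := hWc x hx i
        gcongr
  have key := tree_card S T (by
      intro i x _ x' _ h
      simp only [S, W]
      rw [Hp_congr y h]) hSc (by
      intro x hx i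
      have h1 := (hTx x hx).2 i
      have h0 := ds_pos' ((hTx x hx).1 i j0)
      have hdN : ds (y j0) (x i) ≤ N := ds_le' (hy.2 j0) (hxN x hx i)
      set V' := Vd y * Hp y x i with hV'
      set u := ds (y j0) (x i) with hu
      have hw : wf V' u ∈ W i x := by
        simp only [W]
        rw [mem_filter, Finset.mem_Icc]
        refine ⟨⟨wf_pos _ _, (Nat.le_of_dvd h0 (wf_dvd _ _ h0)).trans hdN⟩, ?_⟩
        intro p hp
        exact prime_dvd_wf (Nat.prime_of_mem_primeFactors hp) (Nat.dvd_of_mem_primeFactors hp)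
      have ht : (vf V' u, wf V' u) ∈ Q.divisors ×ˢ W i x := by
        rw [Finset.mem_product, Nat.mem_divisors]
        exact ⟨⟨h1, by omega⟩, hw⟩
      have hmul : wf V' u * vf V' u = u := wf_mul_vf V' u h0
      simp only [S]
      rw [Finset.mem_union]
      rcases le_total (y j0) (x i) with hle | hle
      · left
        rw [Finset.mem_image]
        refine ⟨_, ht, ?_⟩
        simp only
        rw [hmul, hu]
        unfold ds
        omega
      · right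
        rw [Finset.mem_image]
        refine ⟨_, ht, ?_⟩
        simp only
        rw [hmul, hu]
        unfold ds
        omega)
  have hfl : ((⌊B⌋₊ : ℕ) : ℝ) ≤ B := Nat.floor_le hB0
  calc (T.card : ℝ) ≤ ((⌊B⌋₊ : ℕ) : ℝ) ^ s := by exact_mod_cast key
    _ ≤ B ^ s := pow_le_pow_left₀ (Nat.cast_nonneg _) hfl s
    _ = (2 * C3 * C4) ^ s * ((N : ℝ) ^ (e / (2 * s)) * (N : ℝ) ^ (e / (2 * s))) ^ s := by
        rw [hB, ← mul_pow]; ring
    _ = (2 * C3 * C4) ^ s * (N : ℝ) ^ e := by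
        congr 1
        rw [← Real.rpow_add hNp, ← Real.rpow_natCast, ← Real.rpow_mul hNp.le]
        congr 1
        field_simp
        ring

/-- The property for fixed `A` and `z`. -/
def Q2 (d n s N : ℕ) (B : ℝ) (y : Fin n → ℕ) (A : Finset (Fin s)) (z : Fin s → ℕ)
    (x : Fin s → ℕ) : Prop :=
  (∀ i ∈ A, x i = z i) ∧ (∀ i j, x i ≠ y j) ∧ ∃ w : ℕ, w ≤ d ∧ ∃ F : Fin w → Fin n → ℕ,
    (∀ l, UV d n s N y (fun j => ∏ i ∈ A, ds (y j) (z i)) (F l)) ∧
    ∃ (j0 : Fin n) (M : ℕ), 1 ≤ M ∧ (M : ℝ) ≤ B ∧ M ≤ N ^ s ∧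
      ∀ i, vf (Vd y * Hp y x i) (ds (y j0) (x i)) ∣ M * ∏ l, F l j0

lemma inner2 (hC : CARDU') (hD : DIVStm) (hVI : VINFStm) (d n s : ℕ) (hs : 1 ≤ s) (hdn : 2 * d ≤ n)
    (e : ℝ) (he : 0 < e) :
    ∃ C : ℝ, 0 < C ∧ ∀ N : ℕ, 1 ≤ N → ∀ B : ℝ, 0 ≤ B → ∀ y : Fin n → ℕ, Good n N y →
      ∀ (A : Finset (Fin s)) (z : Fin s → ℕ) (T : Finset (Fin s → ℕ)),
      T ⊆ (Fintype.piFinset fun _ : Fin s => Finset.Icc 1 N) → (∀ x ∈ T, Q2 d n s N B y A z x) →
      (T.card : ℝ) ≤ C * ((N : ℝ) ^ e) ^ (d + 1) * B := by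
  obtain ⟨C1, hC1, h1⟩ := inner1 hD hVI n s (s + s * d) hs e he
  obtain ⟨C2, hC2, h2⟩ := hC d n s hs hdn e he
  set C2' : ℝ := max C2 1 with hC2'
  have hC2'1 : 1 ≤ C2' := le_max_right _ _
  refine ⟨(n : ℝ) * ((d + 1) * C2' ^ d) * C1 + 1, by positivity, ?_⟩
  intro N hN1 B hB0 y hy A z T hT hQ
  have hNr : (1 : ℝ) ≤ N := by exact_mod_cast hN1
  have hNp : (0 : ℝ) < N := by linarith
  rcases T.eq_empty_or_nonempty with hemp | ⟨x0, hx0⟩
  · rw [hemp]; simp; positivity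
  obtain ⟨q1, q2, -⟩ := hQ x0 hx0
  have hx0' : ∀ i, 1 ≤ x0 i ∧ x0 i ≤ N := by
    intro i
    have := hT hx0
    rw [Fintype.mem_piFinset] at this
    simpa using this i
  set α : Fin n → ℕ := fun j => ∏ i ∈ A, ds (y j) (z i) with hα
  have hαx : ∀ j, α j = ∏ i ∈ A, ds (y j) (x0 i) := by
    intro j
    exact Finset.prod_congr rfl fun i hi => by rw [q1 i hi]
  have hα1 : ∀ j, 1 ≤ α j ∧ α j ≤ N ^ s := by
    intro j
    rw [hαx]
    exact ⟨prod_ds_pos A x0 fun i _ => q2 i j, prod_ds_le A x0 (hy.2 j).1 (hy.2 j).2 hx0'⟩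
  obtain ⟨𝓕, h𝓕1, h𝓕2⟩ := h2 N hN1 y hy α hα1
  have hNe : (1 : ℝ) ≤ (N : ℝ) ^ e := Real.one_le_rpow hNr he.le
  have hM : (𝓕.card : ℝ) ≤ C2' * (N : ℝ) ^ e :=
    h𝓕2.trans (mul_le_mul_of_nonneg_right (le_max_left _ _) (by positivity))
  have hM1 : 1 ≤ C2' * (N : ℝ) ^ e := one_le_mul_of_one_le_of_one_le hC2'1 hNe
  have hB1 : 1 ≤ N ^ s := Nat.one_le_pow _ _ hN1
  choose 𝓟 hP1 hP2 hP3 using fun j => prods 𝓕 d (N ^ s) _ hM1 hM hB1 j
  have key : (T.card : ℝ) ≤ ((Finset.univ : Finset (Fin n)).card : ℝ) *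
      ((B * ((d + 1) * (C2' * (N : ℝ) ^ e) ^ d)) * (C1 * (N : ℝ) ^ e)) := by
    apply card_le_of_cover T Finset.univ
      (fun (j0 : Fin n) (x : Fin s → ℕ) => (∀ i j, x i ≠ y j) ∧
        ∃ M P : ℕ, 1 ≤ M ∧ (M : ℝ) ≤ B ∧ M ≤ N ^ s ∧ P ∈ 𝓟 j0 ∧
          ∀ i, vf (Vd y * Hp y x i) (ds (y j0) (x i)) ∣ M * P)
    · intro x hx
      obtain ⟨g1, g2, w, hw, F, hF, j0, M, hM1', hMB, hMN, hdv⟩ := hQ x hx
      refine ⟨j0, Finset.mem_univ _, g2, M, ∏ l, F l j0, hM1', hMB, hMN, ?_, hdv⟩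
      apply hP3 j0 w hw F
      · intro l; exact h𝓕1 _ (hF l)
      · intro l
        obtain ⟨π, -, -, -, -, h5, -⟩ := hF l
        exact h5 j0
    · intro j0 _ T' hT' hP
      have hcI : ((Finset.Icc 1 (min ⌊B⌋₊ (N ^ s))).card : ℝ) ≤ B := by
        rw [Nat.card_Icc]
        have h5 : ((min ⌊B⌋₊ (N ^ s) + 1 - 1 : ℕ) : ℝ) ≤ ((⌊B⌋₊ : ℕ) : ℝ) := by
          have : min ⌊B⌋₊ (N ^ s) + 1 - 1 ≤ ⌊B⌋₊ := by
            have := min_le_left ⌊B⌋₊ (N ^ s)
            omega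
          exact_mod_cast this
        exact h5.trans (Nat.floor_le hB0)
      have key2 : (T'.card : ℝ) ≤ ((Finset.Icc 1 (min ⌊B⌋₊ (N ^ s)) ×ˢ 𝓟 j0).card : ℝ) *
          (C1 * (N : ℝ) ^ e) := by
        apply card_le_of_cover T' _ (fun (t : ℕ × ℕ) (x : Fin s → ℕ) =>
          (∀ i j, x i ≠ y j) ∧ ∀ i, vf (Vd y * Hp y x i) (ds (y j0) (x i)) ∣ t.1 * t.2)
        · intro x hx
          obtain ⟨g2, M, P, hM1', hMB, hMN, hPm, hdv⟩ := hP x hx
          refine ⟨(M, P), ?_, g2, hdv⟩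
          rw [Finset.mem_product, Finset.mem_Icc]
          exact ⟨⟨hM1', le_min (Nat.le_floor hMB) hMN⟩, hPm⟩
        · rintro ⟨M, P⟩ hMP T'' hT'' hQ''
          rw [Finset.mem_product, Finset.mem_Icc] at hMP
          obtain ⟨hPp, hPle⟩ := hP2 j0 P hMP.2
          refine h1 N hN1 y hy j0 (M * P) (Nat.mul_pos hMP.1.1 hPp) ?_ T''
            ((hT''.trans hT').trans hT) hQ''
          rw [pow_add, pow_mul]
          exact Nat.mul_le_mul (hMP.1.2.trans (min_le_right _ _)) hPle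
      rw [Finset.card_product] at key2
      push_cast at key2
      refine key2.trans ?_
      apply mul_le_mul_of_nonneg_right _ (by positivity)
      apply mul_le_mul hcI (hP1 j0) (by positivity) hB0
  have hcard : ((Finset.univ : Finset (Fin n)).card : ℝ) = (n : ℝ) := by
    simp only [Finset.card_univ, Fintype.card_fin]
  rw [hcard] at key
  have hfin : (n : ℝ) * ((B * ((d + 1) * (C2' * (N : ℝ) ^ e) ^ d)) * (C1 * (N : ℝ) ^ e)) =
      ((n : ℝ) * ((d + 1) * C2' ^ d) * C1) * (((N : ℝ) ^ e) ^ (d + 1) * B) := by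
    rw [mul_pow, pow_succ]; ring
  rw [hfin] at key
  have hX : (0 : ℝ) ≤ ((N : ℝ) ^ e) ^ (d + 1) * B := by positivity
  calc (T.card : ℝ) ≤ _ := key
    _ ≤ ((n : ℝ) * ((d + 1) * C2' ^ d) * C1 + 1) * (((N : ℝ) ^ e) ^ (d + 1) * B) := by
        apply mul_le_mul_of_nonneg_right _ hX
        linarith
    _ = _ := by ring

/-- The set counted, for a fixed `A`. -/
def Q3 (d n s N : ℕ) (B : ℝ) (y : Fin n → ℕ) (A : Finset (Fin s)) (x : Fin s → ℕ) : Prop :=
  (∀ i j, x i ≠ y j) ∧ ∃ w : ℕ, w ≤ d ∧ ∃ F : Fin w → Fin n → ℕ,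
    (∀ l, UV d n s N y (fun j => ∏ i ∈ A, ds (y j) (x i)) (F l)) ∧
    ∃ (j0 : Fin n) (M : ℕ), 1 ≤ M ∧ (M : ℝ) * (N : ℝ) ^ A.card ≤ B ∧ M ≤ N ^ s ∧
      ∀ i, vf (Vd y * Hp y x i) (ds (y j0) (x i)) ∣ M * ∏ l, F l j0

lemma Q3_Q2 {d n s N : ℕ} {B : ℝ} (hN : 1 ≤ N) {y : Fin n → ℕ} {A : Finset (Fin s)}
    {x z : Fin s → ℕ} (h : Q3 d n s N B y A x) (hz : ∀ i ∈ A, x i = z i) :
    Q2 d n s N (B / (N : ℝ) ^ A.card) y A z x := by
  obtain ⟨g2, w, hw, F, hF, j0, M, h1, h2, h3, h4⟩ := h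
  have hpr : ∀ j, ∏ i ∈ A, ds (y j) (x i) = ∏ i ∈ A, ds (y j) (z i) := fun j =>
    Finset.prod_congr rfl fun i hi => by rw [hz i hi]
  have hNp : (0 : ℝ) < (N : ℝ) ^ A.card := by positivity
  refine ⟨hz, g2, w, hw, F, ?_, j0, M, h1, (le_div_iff₀ hNp).2 h2, h3, h4⟩
  intro l
  have := hF l
  simp only [hpr] at this
  exact this

lemma inner3 (hC : CARDU') (hD : DIVStm) (hVI : VINFStm) (d n s : ℕ) (hs : 1 ≤ s) (hdn : 2 * d ≤ n)
    (e : ℝ) (he : 0 < e) :
    ∃ C : ℝ, 0 < C ∧ ∀ N : ℕ, 1 ≤ N → ∀ B : ℝ, 0 ≤ B → ∀ y : Fin n → ℕ, Good n N y →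
      ∀ (A : Finset (Fin s)) (T : Finset (Fin s → ℕ)),
      T ⊆ (Fintype.piFinset fun _ : Fin s => Finset.Icc 1 N) → (∀ x ∈ T, Q3 d n s N B y A x) →
      (T.card : ℝ) ≤ C * ((N : ℝ) ^ e) ^ (d + 1) * B := by
  classical
  obtain ⟨C, hCp, h⟩ := inner2 hC hD hVI d n s hs hdn e he
  refine ⟨C, hCp, ?_⟩
  intro N hN1 B hB0 y hy A T hT hQ
  have hNp : (0 : ℝ) < (N : ℝ) ^ A.card := by positivity
  have key : (T.card : ℝ) ≤ ((Fintype.piFinset fun i : Fin s => if i ∈ A then Finset.Icc 1 N else {1}).card : ℝ) *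
      (C * ((N : ℝ) ^ e) ^ (d + 1) * (B / (N : ℝ) ^ A.card)) := by
    apply card_le_of_cover T _ (fun z x => Q2 d n s N (B / (N : ℝ) ^ A.card) y A z x)
    · intro x hx
      refine ⟨fun i => if i ∈ A then x i else 1, ?_, ?_⟩
      · rw [Fintype.mem_piFinset]
        intro i
        by_cases hi : i ∈ A
        · have := hT hx
          rw [Fintype.mem_piFinset] at this
          simpa [hi] using this i
        · simp [hi]
      · apply Q3_Q2 hN1 (hQ x hx)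
        intro i hi
        simp [hi]
    · intro z hz T' hT' hP
      exact h N hN1 _ (by positivity) y hy A z T' (hT'.trans hT) hP
  have hcard : ((Fintype.piFinset fun i : Fin s => if i ∈ A then Finset.Icc 1 N else {1}).card : ℝ) =
      (N : ℝ) ^ A.card := by
    rw [Fintype.card_piFinset]
    push_cast
    have : ∀ i : Fin s, (((if i ∈ A then Finset.Icc 1 N else {1} : Finset ℕ).card : ℕ) : ℝ) =
        if i ∈ A then (N : ℝ) else 1 := by
      intro i; split_ifs <;> simp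
    simp_rw [this]
    rw [Finset.prod_ite_mem]
    simp
  rw [hcard] at key
  refine key.trans (le_of_eq ?_)
  field_simp

/-- the main counting lemma -/
def MAIN' : Prop := ∀ (d n s : ℕ) (r : ℕ → ℕ) (c : ℝ), 1 ≤ d → 2 * d ≤ n → 1 ≤ s → RC d n s r c →
  ∀ ε : ℝ, 0 < ε → ∃ C : ℝ, 0 < C ∧ ∀ N : ℕ, 1 ≤ N → ∀ y : Fin n → ℕ, Good n N y →
    ((ZS d n s N y).card : ℝ) ≤ C * (N : ℝ) ^ ((s : ℝ) / n + c * ((d : ℝ) - 1) + ε)

lemma Bd_nn (d n s N : ℕ) (c : ℝ) : 0 ≤ Bd d n s N c := by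
  unfold Bd
  positivity

theorem main' (hC : CARDU') (hD : DIVStm) (hVI : VINFStm) (hFAC : FACStm) (hVF : VFStm)
    (hREF : REFStm) : MAIN' := by
  classical
  intro d n s r c hd hdn hs hRC ε hε
  have he : (0 : ℝ) < ε / ((d : ℝ) + 1) := by positivity
  obtain ⟨C1, hC1, h1⟩ := inner3 hC hD hVI d n s hs hdn _ he
  refine ⟨2 ^ s * C1 * Real.exp ((d : ℝ) * s * kap d n), by positivity, ?_⟩
  intro N hN1 y hy
  have hNr : (1 : ℝ) ≤ N := by exact_mod_cast hN1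
  have hNp : (0 : ℝ) < N := by linarith
  have hBd := Bd_nn d n s N c
  have hT : ((ZS d n s N y).card : ℝ) ≤
      ((Finset.univ : Finset (Finset (Fin s))).card : ℝ) *
      (C1 * ((N : ℝ) ^ (ε / ((d : ℝ) + 1))) ^ (d + 1) * Bd d n s N c) := by
    apply card_le_of_cover _ _ (fun A x => Q3 d n s N (Bd d n s N c) y A x)
    · intro x hx
      obtain ⟨A, w, hw, F, hF, hrest⟩ := str' hFAC hVF hREF d n s N r c hd hdn hs hRC y hy x hx
      unfold ZS at hx
      rw [Finset.mem_filter] at hx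
      exact ⟨A, Finset.mem_univ _, hx.2.1, w, hw, F, hF, hrest⟩
    · intro A _ T' hT' hP
      refine h1 N hN1 _ hBd y hy A T' ?_ hP
      exact hT'.trans (Finset.filter_subset _ _)
  have hpow : ((N : ℝ) ^ (ε / ((d : ℝ) + 1))) ^ (d + 1) = (N : ℝ) ^ ε := by
    rw [← Real.rpow_natCast, ← Real.rpow_mul hNp.le]
    push_cast
    congr 1
    field_simp
  rw [hpow] at hT
  have hcardA : ((Finset.univ : Finset (Finset (Fin s))).card : ℝ) = 2 ^ s := by
    simp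
  rw [hcardA] at hT
  refine hT.trans (le_of_eq ?_)
  unfold Bd
  rw [Real.rpow_add hNp ((s : ℝ) / n + c * ((d : ℝ) - 1)) ε]
  ring

end Pool.Agent.TH900.VPS
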