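import Pool.Agent.TH900.VPS.Count
import Pool.Agent.W154.PV.PV_DISJ

/-! Disjoint solutions of Vinogradov's system. -/

set_option autoImplicit false

namespace Pool.Agent.TH900.VPS

open Finset Polynomial
open Pool.Agent.W89.VP
open Pool.Agent.W154.PV (mem_VD card_S card_V2)

lemma RC_one {d n s : ℕ} {r : ℕ → ℕ} {c : ℝ} (h : RC d n s r c) (hd : 2 ≤ d) : 1 ≤ c := by
  have h1 := h.2 1 le_rfl (by omega)
  have h2 : 0 < r 1 := by
    rcases Nat.eq_zero_or_pos (r 1) with h0 | h0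
    · have := h1.1
      rw [h0, zero_mul] at this
      omega
    · exact h0
  have h3 : (1 : ℝ) ≤ r 1 := by exact_mod_cast h2
  have h4 := h1.2.2.1
  push_cast at h4
  linarith

theorem disj (hM : MAIN') (hN : NEWTStm) (k d n : ℕ) (r : ℕ → ℕ) (c : ℝ) (hd : 1 ≤ d)
    (hdn : 2 * d ≤ n) (hnt : n ≤ k + d) (hRC : RC d n (k + d) r c) (ε : ℝ) (hε : 0 < ε) :
    ∃ C : ℝ, 0 < C ∧ ∀ N : ℕ, 1 ≤ N → ((VD (k + d) k N).card : ℝ) ≤
      C * (N : ℝ) ^ ((n : ℝ) + ((k + d : ℕ) : ℝ) / n + c * ((d : ℝ) - 1) + ε) := by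
  classical
  obtain ⟨C1, hC1, hmain⟩ := hM d n (k + d) r c hd hdn (by omega) hRC ε hε
  refine ⟨((k + d : ℕ) : ℝ) ^ n * ((k + d).factorial * C1) + k.factorial * (n : ℝ) ^ (k + d) + 1,
    by positivity, ?_⟩
  intro N hN1
  have hNr : (1 : ℝ) ≤ N := by exact_mod_cast hN1
  have hN0 : (0 : ℝ) < N := by linarith
  have hn0 : (0 : ℝ) < n := by
    have : 0 < n := by omega
    exact_mod_cast this
  set B : ℝ := C1 * (N : ℝ) ^ (((k + d : ℕ) : ℝ) / n + c * ((d : ℝ) - 1) + ε) with hB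
  have hB0 : 0 ≤ B := by positivity
  -- case 1
  let I : Finset ((Fin n → Fin (k + d)) × (Fin n → ℕ)) :=
    ((univ : Finset (Fin n → Fin (k + d))) ×ˢ
      (Fintype.piFinset fun _ : Fin n => Finset.Icc 1 N)).filter (fun q => Function.Injective q.2)
  have hI : (I.card : ℝ) ≤ ((k + d : ℕ) : ℝ) ^ n * (N : ℝ) ^ n := by
    have h1 : I.card ≤ (k + d) ^ n * N ^ n := by
      refine (Finset.card_filter_le _ _).trans ?_
      rw [Finset.card_product, Finset.card_univ, Fintype.card_piFinset]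
      simp
    exact_mod_cast h1
  have hV1 : (((VD (k + d) k N).filter (fun p => ∃ e : Fin n → Fin (k + d),
      Function.Injective (fun j => p.2 (e j)))).card : ℝ) ≤
      (((k + d : ℕ) : ℝ) ^ n * (N : ℝ) ^ n) * ((k + d).factorial * B) := by
    have hsub : ((VD (k + d) k N).filter (fun p => ∃ e : Fin n → Fin (k + d),
        Function.Injective (fun j => p.2 (e j)))) ⊆
        I.biUnion (fun q => (VD (k + d) k N).filter (fun p => ∀ j, p.2 (q.1 j) = q.2 j)) := by
      intro p hp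
      rw [Finset.mem_filter] at hp
      obtain ⟨hp, e, he⟩ := hp
      rw [Finset.mem_biUnion]
      refine ⟨(e, fun j => p.2 (e j)), ?_, ?_⟩
      · rw [Finset.mem_filter, Finset.mem_product, Fintype.mem_piFinset]
        refine ⟨⟨Finset.mem_univ _, fun j => ?_⟩, he⟩
        exact Finset.mem_Icc.2 (((mem_VD p).1 hp).1.2 _)
      · rw [Finset.mem_filter]
        exact ⟨hp, fun j => rfl⟩
    have h2 : ((I.biUnion (fun q => (VD (k + d) k N).filter (fun p => ∀ j, p.2 (q.1 j) = q.2 j))).card : ℝ)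
        ≤ ∑ q ∈ I, (((VD (k + d) k N).filter (fun p => ∀ j, p.2 (q.1 j) = q.2 j)).card : ℝ) := by
      exact_mod_cast Finset.card_biUnion_le
    have h3 : ∀ q ∈ I, (((VD (k + d) k N).filter (fun p => ∀ j, p.2 (q.1 j) = q.2 j)).card : ℝ) ≤
        (k + d).factorial * B := by
      intro q hq
      rw [Finset.mem_filter, Finset.mem_product, Fintype.mem_piFinset] at hq
      obtain ⟨⟨_, hq2⟩, hq3⟩ := hq
      have h4 := card_S (N := N) hN (show d ≤ n by omega) q.1 q.2 hq3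
      have h5 := hmain N hN1 q.2 ⟨hq3, fun j => Finset.mem_Icc.1 (hq2 j)⟩
      calc (((VD (k + d) k N).filter (fun p => ∀ j, p.2 (q.1 j) = q.2 j)).card : ℝ)
          ≤ (((k + d).factorial * (ZS d n (k + d) N q.2).card : ℕ) : ℝ) := by
            refine Nat.cast_le.2 ?_
            convert h4
        _ = (k + d).factorial * ((ZS d n (k + d) N q.2).card : ℝ) := by push_cast; ring
        _ ≤ (k + d).factorial * B := mul_le_mul_of_nonneg_left h5 (by positivity)
    calc _ ≤ ((I.biUnion (fun q => (VD (k + d) k N).filter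
          (fun p => ∀ j, p.2 (q.1 j) = q.2 j))).card : ℝ) := by
          exact_mod_cast Finset.card_le_card hsub
      _ ≤ _ := h2
      _ ≤ ∑ q ∈ I, ((k + d).factorial * B : ℝ) := Finset.sum_le_sum h3
      _ = (I.card : ℝ) * ((k + d).factorial * B) := by rw [Finset.sum_const, nsmul_eq_mul]
      _ ≤ _ := mul_le_mul_of_nonneg_right hI (by positivity)
  -- case 2
  have hV2 : (((VD (k + d) k N).filter (fun p => ¬ ∃ e : Fin n → Fin (k + d),
      Function.Injective (fun j => p.2 (e j)))).card : ℝ) ≤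
      k.factorial * ((n : ℝ) ^ (k + d) * (N : ℝ) ^ n * (N : ℝ) ^ d) := by
    exact_mod_cast card_V2 (n := n) hN hN1
  have hsum : ((VD (k + d) k N).card : ℝ) =
      (((VD (k + d) k N).filter (fun p => ∃ e : Fin n → Fin (k + d),
      Function.Injective (fun j => p.2 (e j)))).card : ℝ) +
      (((VD (k + d) k N).filter (fun p => ¬ ∃ e : Fin n → Fin (k + d),
      Function.Injective (fun j => p.2 (e j)))).card : ℝ) := by
    exact_mod_cast (Finset.card_filter_add_card_filter_not _).symm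
  -- exponents
  set E : ℝ := (n : ℝ) + ((k + d : ℕ) : ℝ) / n + c * ((d : ℝ) - 1) + ε with hE
  have hE1 : (N : ℝ) ^ n * (N : ℝ) ^ (((k + d : ℕ) : ℝ) / n + c * ((d : ℝ) - 1) + ε) = (N : ℝ) ^ E := by
    rw [← Real.rpow_natCast, ← Real.rpow_add hN0, hE]
    congr 1
    ring
  have hE2 : (N : ℝ) ^ n * (N : ℝ) ^ d ≤ (N : ℝ) ^ E := by
    rw [← Real.rpow_natCast, ← Real.rpow_natCast, ← Real.rpow_add hN0]
    apply Real.rpow_le_rpow_of_exponent_le hNr
    rw [hE]
    have h1 : (1 : ℝ) ≤ ((k + d : ℕ) : ℝ) / n := by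
      rw [le_div_iff₀ hn0, one_mul]
      exact_mod_cast hnt
    have h2 : (d : ℝ) - 1 ≤ c * ((d : ℝ) - 1) := by
      rcases Nat.lt_or_ge d 2 with h | h
      · have : d = 1 := by omega
        rw [this]; simp
      · have hc := RC_one hRC h
        have hd2 : (1 : ℝ) ≤ (d : ℝ) - 1 := by
          have : (2 : ℝ) ≤ d := by exact_mod_cast h
          linarith
        nlinarith
    linarith
  set Q := (N : ℝ) ^ E with hQ
  have hQ0 : 0 < Q := Real.rpow_pos_of_pos hN0 _
  rw [hsum]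
  have t1 : (((k + d : ℕ) : ℝ) ^ n * (N : ℝ) ^ n) * ((k + d).factorial * B) ≤
      ((k + d : ℕ) : ℝ) ^ n * ((k + d).factorial * C1) * Q := by
    have : (((k + d : ℕ) : ℝ) ^ n * (N : ℝ) ^ n) * ((k + d).factorial * B) =
        (((k + d : ℕ) : ℝ) ^ n * ((k + d).factorial * C1)) *
          ((N : ℝ) ^ n * (N : ℝ) ^ (((k + d : ℕ) : ℝ) / n + c * ((d : ℝ) - 1) + ε)) := by
      rw [hB]; ring
    rw [this, hE1]
  have t2 : k.factorial * ((n : ℝ) ^ (k + d) * (N : ℝ) ^ n * (N : ℝ) ^ d) ≤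
      k.factorial * (n : ℝ) ^ (k + d) * Q := by
    have : (k.factorial : ℝ) * ((n : ℝ) ^ (k + d) * (N : ℝ) ^ n * (N : ℝ) ^ d) =
        (k.factorial * (n : ℝ) ^ (k + d)) * ((N : ℝ) ^ n * (N : ℝ) ^ d) := by ring
    rw [this]
    exact mul_le_mul_of_nonneg_left hE2 (by positivity)
  nlinarith [hV1, hV2, t1, t2, hQ0]

end Pool.Agent.TH900.VPS
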