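import Pool.Agent.TH900.VPS.Card
import Pool.Agent.W89.VP.StrC

/-! The structure of the tuples `x` in `ZS`. -/

set_option autoImplicit false

namespace Pool.Agent.TH900.VPS

open Finset Polynomial
open Pool.Agent.W89.VP
open Pool.Agent.W505.PV.VF (wf wf_mul_vf vf_pos)
open Pool.Agent.W298.PVUniqB (exists_small)

/-- product of all `|y_j - x_i'|` with `i' < i` -/
def Hp {n s : ℕ} (y : Fin n → ℕ) (x : Fin s → ℕ) (i : Fin s) : ℕ :=
  ∏ i' ∈ univ.filter (fun i' : Fin s => i' < i), ∏ j, ds (y j) (x i')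

/-- the structure found for every tuple of `ZS` -/
def STRv (d n s N : ℕ) (B : ℝ) (y : Fin n → ℕ) (x : Fin s → ℕ) : Prop :=
  ∃ A : Finset (Fin s), ∃ w : ℕ, w ≤ d ∧ ∃ F : Fin w → Fin n → ℕ,
    (∀ l, UV d n s N y (fun j => ∏ i ∈ A, ds (y j) (x i)) (F l)) ∧
    ∃ (j0 : Fin n) (M : ℕ), 1 ≤ M ∧ (M : ℝ) * (N : ℝ) ^ A.card ≤ B ∧ M ≤ N ^ s ∧
      ∀ i, vf (Vd y * Hp y x i) (ds (y j0) (x i)) ∣ M * ∏ l, F l j0

/-- the conditions on the number `r δ` of rows used for a factor of degree `δ`, and on the price `c` per degree -/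
def RC (d n s : ℕ) (r : ℕ → ℕ) (c : ℝ) : Prop :=
  0 ≤ c ∧ ∀ δ : ℕ, 1 ≤ δ → δ < d → 2 * δ * s < r δ * n ∧ r δ ≤ s ∧ (r δ : ℝ) ≤ c * δ ∧
    ((δ : ℝ) - 1) * s ≤ c * ((r δ : ℝ) * n - 2 * δ * s)

lemma exists_top (s m' : ℕ) (hs : 0 < s) (h : m' ≤ s) (a : Fin s → ℝ) :
    ∃ A : Finset (Fin s), A.card = m' ∧ (m' : ℝ) * ∑ i, a i ≤ s * ∑ i ∈ A, a i := by
  obtain ⟨e, he, hle⟩ := exists_small s m' hs h (fun i => - a i)
  refine ⟨univ.map ⟨e, he⟩, by simp, ?_⟩
  rw [Finset.sum_map]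
  simp only [Finset.sum_neg_distrib, mul_neg] at hle
  simp only [Function.Embedding.coeFn_mk]
  linarith

lemma ds_dvd_Vd' {n : ℕ} (y : Fin n → ℕ) {i j : Fin n} (hij : i ≠ j) : ds (y i) (y j) ∣ Vd y := by
  exact Pool.Agent.W298.PVUniqB.ds_dvd_Vd y i j hij

/-- `p` first occurs, among the differences `y_j' - x_i'`, in the row of `j` -/
def Pr {n s : ℕ} (y : Fin n → ℕ) (x : Fin s → ℕ) (j : Fin n) (p : ℕ) : Prop :=
  ∃ i : Fin s, p ∣ ds (y j) (x i) ∧ ∀ i' < i, ∀ j', ¬ p ∣ ds (y j') (x i')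

lemma Pr_unique {n s : ℕ} (y : Fin n → ℕ) (x : Fin s → ℕ) {p : ℕ} (hV : ¬ p ∣ Vd y) {j j' : Fin n}
    (h : Pr y x j p) (h' : Pr y x j' p) : j = j' := by
  obtain ⟨i, h1, h2⟩ := h
  obtain ⟨i', h1', h2'⟩ := h'
  have hii : i = i' := by
    rcases lt_trichotomy i i' with h | h | h
    · exact absurd h1 (h2' i h j)
    · exact h
    · exact absurd h1' (h2 i' h j')
  subst hii
  by_contra hne
  apply hV
  refine dvd_trans ?_ (ds_dvd_Vd' y hne)
  have e1 : (p : ℤ) ∣ (y j : ℤ) - x i := Int.natCast_dvd.2 h1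
  have e2 : (p : ℤ) ∣ (y j' : ℤ) - x i := Int.natCast_dvd.2 h1'
  have e3 : (p : ℤ) ∣ (y j : ℤ) - y j' := by
    have := dvd_sub e1 e2
    have h4 : (y j : ℤ) - x i - (y j' - x i) = (y j : ℤ) - y j' := by ring
    rwa [h4] at this
  exact Int.natCast_dvd.1 e3

open scoped Classical in
/-- the part of `c` paid for at `j` -/
noncomputable def paid {n s : ℕ} (y : Fin n → ℕ) (x : Fin s → ℕ) (c : ℕ) (j : Fin n) : ℕ :=
  ∏ p ∈ c.primeFactors.filter (fun p => ¬ p ∣ Vd y ∧ Pr y x j p), p ^ (c.factorization p)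

open scoped Classical in
/-- the rest of `c` -/
noncomputable def rest {n s : ℕ} (y : Fin n → ℕ) (x : Fin s → ℕ) (c : ℕ) (j : Fin n) : ℕ :=
  ∏ p ∈ c.primeFactors.filter (fun p => ¬ (¬ p ∣ Vd y ∧ Pr y x j p)), p ^ (c.factorization p)

lemma paid_mul_rest {n s : ℕ} (y : Fin n → ℕ) (x : Fin s → ℕ) (c : ℕ) (hc : 1 ≤ c) (j : Fin n) :
    paid y x c j * rest y x c j = c := by
  classical
  unfold paid rest
  rw [prod_filter_mul_prod_filter_not]
  exact Nat.prod_factorization_pow_eq_self (by omega)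

lemma paid_pos {n s : ℕ} (y : Fin n → ℕ) (x : Fin s → ℕ) (c : ℕ) (j : Fin n) : 1 ≤ paid y x c j := by
  classical
  unfold paid
  exact Nat.one_le_iff_ne_zero.mpr (prod_ne_zero_iff.mpr fun p hp =>
    pow_ne_zero _ (Nat.prime_of_mem_primeFactors (mem_filter.mp hp).1).ne_zero)

lemma log_paid_sum {n s : ℕ} (y : Fin n → ℕ) (x : Fin s → ℕ) (c : ℕ) (hc : 1 ≤ c) :
    ∑ j, Real.log (paid y x c j : ℝ) ≤ Real.log (c : ℝ) := by
  classical
  have h1 : ∀ j, Real.log (paid y x c j : ℝ) = ∑ p ∈ c.primeFactors,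
      if (¬ p ∣ Vd y ∧ Pr y x j p) then Real.log ((p ^ (c.factorization p) : ℕ) : ℝ) else 0 := by
    intro j
    unfold paid
    rw [log_prod_nat, Finset.sum_filter]
    intro p hp
    exact Nat.one_le_iff_ne_zero.mpr
      (pow_ne_zero _ (Nat.prime_of_mem_primeFactors (mem_filter.mp hp).1).ne_zero)
  have h2 : Real.log (c : ℝ) = ∑ p ∈ c.primeFactors, Real.log ((p ^ (c.factorization p) : ℕ) : ℝ) := by
    rw [← log_prod_nat]
    · congr 2
      exact (Nat.prod_factorization_pow_eq_self (by omega)).symm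
    · intro p hp
      exact Nat.one_le_iff_ne_zero.mpr (pow_ne_zero _ (Nat.prime_of_mem_primeFactors hp).ne_zero)
  rw [Finset.sum_congr rfl (fun j _ => h1 j), Finset.sum_comm, h2]
  apply Finset.sum_le_sum
  intro p _
  rw [← Finset.sum_filter, Finset.sum_const, nsmul_eq_mul]
  have h3 : (univ.filter (fun j => ¬ p ∣ Vd y ∧ Pr y x j p)).card ≤ 1 := by
    rw [Finset.card_le_one]
    intro a ha b hb
    rw [mem_filter] at ha hb
    exact Pr_unique y x ha.2.1 ha.2.2 hb.2.2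
  have h4 : ((univ.filter (fun j => ¬ p ∣ Vd y ∧ Pr y x j p)).card : ℝ) ≤ 1 := by exact_mod_cast h3
  have h5 : 0 ≤ Real.log ((p ^ (c.factorization p) : ℕ) : ℝ) := log_nn _
  nlinarith

/-- constant in the threshold -/
noncomputable def kap (d n : ℕ) : ℝ := Real.log (((2 * d).factorial : ℝ) * 4 ^ n)

lemma kap_nn (d n : ℕ) : 0 ≤ kap d n := by
  unfold kap
  apply Real.log_nonneg
  have h1 : (1 : ℝ) ≤ ((2 * d).factorial : ℝ) := by exact_mod_cast Nat.succ_le_of_lt (Nat.factorial_pos _)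
  have h2 : (1 : ℝ) ≤ (4 : ℝ) ^ n := one_le_pow₀ (by norm_num)
  nlinarith

/-- the bound for the paid part -/
noncomputable def Bd (d n s N : ℕ) (c : ℝ) : ℝ :=
  Real.exp ((d : ℝ) * s * kap d n) * (N : ℝ) ^ ((s : ℝ) / n + c * ((d : ℝ) - 1))

lemma undet_bound (n δ d N s r : ℕ) (c : ℝ) (hd : δ + 1 ≤ d) (hδ : 1 ≤ δ) (hn : 1 ≤ n) (hs : 1 ≤ s)
    (hN : 1 ≤ N) (hrn : 2 * δ * s < r * n)
    (hrc : ((δ : ℝ) - 1) * s ≤ c * ((r : ℝ) * n - 2 * δ * s))
    (G p : Fin n → ℕ) (hG : ∀ j, 1 ≤ G j) (hp : ∀ j, 1 ≤ p j)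
    (hT : ¬ Ta n δ N G < ∏ j, (p j : ℝ))
    (hpl : (r : ℝ) * ∑ j, Real.log (G j : ℝ) ≤ s * ∑ j, Real.log (p j : ℝ)) :
    ∑ j, Real.log (G j : ℝ) ≤ n * (s * kap d n + c * δ * Real.log N) := by
  push Not at hT
  have hN0 : (0 : ℝ) < N := by positivity
  have hn0 : (0 : ℝ) < n := by positivity
  have hs0 : (0 : ℝ) < s := by positivity
  have hδ0 : (0 : ℝ) < δ := by positivity
  have hGp : (0 : ℝ) < ∏ j, (G j : ℝ) := Finset.prod_pos (fun j _ => by have := hG j; positivity)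
  have hpp : (0 : ℝ) < ∏ j, (p j : ℝ) := Finset.prod_pos (fun j _ => by have := hp j; positivity)
  set Λ := ∑ j, Real.log (G j : ℝ) with hΛ
  have e1 : Real.log (Ta n δ N G) = Real.log (((2 * δ).factorial : ℝ) * 4 ^ n) +
      (δ * (δ - 1) : ℕ) * Real.log N + (2 * (δ : ℝ)) / n * Λ := by
    unfold Ta
    rw [Real.log_mul (by positivity) (by positivity), Real.log_mul (by positivity) (by positivity),
      Real.log_mul (by positivity) (by positivity), Real.log_pow, Real.log_rpow hGp,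
      Real.log_prod (fun j _ => by have := hG j; positivity), ← hΛ,
      Real.log_mul (by positivity) (by positivity)]
    push_cast
    ring
  have e2 : Real.log (((2 * δ).factorial : ℝ) * 4 ^ n) ≤ kap d n := by
    unfold kap
    apply Real.log_le_log (by positivity)
    have h1 : (2 * δ).factorial ≤ (2 * d).factorial := Nat.factorial_le (by omega)
    have h2 : ((2 * δ).factorial : ℝ) ≤ ((2 * d).factorial : ℝ) := by exact_mod_cast h1
    gcongr
  have e3 : Real.log (∏ j, (p j : ℝ)) = ∑ j, Real.log (p j : ℝ) :=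
    Real.log_prod (fun j _ => by have := hp j; positivity)
  have e4 := Real.log_le_log hpp hT
  rw [e1, e3] at e4
  have e5 : ((δ * (δ - 1) : ℕ) : ℝ) = δ * ((δ : ℝ) - 1) := by
    rw [Nat.cast_mul, Nat.cast_sub hδ, Nat.cast_one]
  rw [e5] at e4
  have hκ := kap_nn d n
  have hL : 0 ≤ Real.log (N : ℝ) := log_nn N
  -- r Λ ≤ s (κ + δ(δ-1)L + 2δ/n Λ)
  have e6 : (r : ℝ) * Λ ≤ s * (kap d n + δ * ((δ : ℝ) - 1) * Real.log N
      + (2 * (δ : ℝ)) / n * Λ) := by
    refine hpl.trans (mul_le_mul_of_nonneg_left ?_ hs0.le)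
    linarith
  have e7 : ((r : ℝ) * n - 2 * δ * s) * Λ ≤ s * n * (kap d n + δ * ((δ : ℝ) - 1) * Real.log N) := by
    have h1 := mul_le_mul_of_nonneg_left e6 hn0.le
    have h2 : (n : ℝ) * (s * (kap d n + δ * ((δ : ℝ) - 1) * Real.log N
      + (2 * (δ : ℝ)) / n * Λ)) = s * n * (kap d n + δ * ((δ : ℝ) - 1) * Real.log N)
        + 2 * δ * s * Λ := by
      field_simp
    rw [h2] at h1
    nlinarith
  have e8 : (1 : ℝ) ≤ (r : ℝ) * n - 2 * δ * s := by
    have h1 : 2 * δ * s + 1 ≤ r * n := hrn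
    have h2 : ((2 * δ * s + 1 : ℕ) : ℝ) ≤ ((r * n : ℕ) : ℝ) := by exact_mod_cast h1
    push_cast at h2
    linarith
  have e9 : ((r : ℝ) * n - 2 * δ * s) * Λ ≤
      ((r : ℝ) * n - 2 * δ * s) * (n * (s * kap d n + c * δ * Real.log N)) := by
    refine e7.trans ?_
    have h1 : s * n * kap d n ≤ ((r : ℝ) * n - 2 * δ * s) * (s * n * kap d n) := by
      have h4 : 0 ≤ s * n * kap d n := by positivity
      nlinarith
    have h2 : s * n * (δ * ((δ : ℝ) - 1) * Real.log N) ≤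
        ((r : ℝ) * n - 2 * δ * s) * (n * (c * δ * Real.log N)) := by
      have h3 : 0 ≤ n * δ * Real.log N := by positivity
      have h4 := mul_le_mul_of_nonneg_right hrc h3
      nlinarith
    nlinarith
  exact le_of_mul_le_mul_left e9 (by linarith)

theorem str' (hFAC : FACStm) (hVF : VFStm) (hREF : REFStm) (d n s N : ℕ) (r : ℕ → ℕ) (c' : ℝ)
    (hd : 1 ≤ d) (hn : 2 * d ≤ n) (hs : 1 ≤ s) (hRC : RC d n s r c')
    (y : Fin n → ℕ) (hy : Good n N y) (x : Fin s → ℕ) (hx : x ∈ ZS d n s N y) :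
    STRv d n s N (Bd d n s N c') y x := by
  classical
  obtain ⟨c, w, π, g, γ, j₁, j₂, hc, hπ, hdd, hQ, hds, hg, hg0, hgl, -, -, -⟩ :=
    data_B hFAC hVF hREF d n s N (by omega) y hy x hx
  obtain ⟨v1, v2, v3, v4, v5, v6⟩ := hVF
  obtain ⟨hxm, hxy, -⟩ : x ∈ (Fintype.piFinset fun _ : Fin s => Finset.Icc 1 N) ∧
      (∀ i j, x i ≠ y j) ∧ ∃ R : ℤ[X], R.degree < (d : WithBot ℕ) ∧
      ∀ j, R.eval (y j : ℤ) = ∏ i : Fin s, ((y j : ℤ) - (x i : ℤ)) := by
    have hx' := hx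
    unfold ZS at hx'
    rw [Finset.mem_filter] at hx'
    exact hx'
  have hxN : ∀ i, 1 ≤ x i ∧ x i ≤ N := fun i => Finset.mem_Icc.1 (Fintype.mem_piFinset.1 hxm i)
  have hn0 : 0 < n := by omega
  have hN1 : 1 ≤ N := (hy.2 ⟨0, hn0⟩).1.trans (hy.2 ⟨0, hn0⟩).2
  have hV : 1 ≤ Vd y := Vd_pos hy.1
  set V := Vd y with hVdef
  have hU1 : ∀ j i, 1 ≤ ds (y j) (x i) := fun j i => ds_pos (hxy i j)
  have hUN : ∀ j i, ds (y j) (x i) ≤ N := fun j i => ds_le (hy.2 j) (hxN i)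
  have hg1 : ∀ j i o, 1 ≤ g j i o := by
    intro j i o
    have h2 : ∏ l, g j i l ≠ 0 := by
      rw [← hg j i]; have := v2 V _ (hU1 j i); omega
    exact Nat.one_le_iff_ne_zero.2 (Finset.prod_ne_zero_iff.1 h2 o (Finset.mem_univ _))
  set F : Fin w → Fin n → ℕ := fun l j => ((π l).eval (y j : ℤ)).natAbs with hF
  have hF1 : ∀ l j, 1 ≤ F l j := fun l j => hQ j l
  have hδ : ∀ l, 1 ≤ (π l).natDegree := fun l => (hπ l).2
  have hδd : ∀ l, (π l).natDegree + 1 ≤ d := by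
    intro l
    have := Finset.single_le_sum (f := fun l => (π l).natDegree) (fun _ _ => Nat.zero_le _)
      (Finset.mem_univ l)
    omega
  have hD : ∀ j, ∏ i, ds (y j) (x i) ≤ N ^ s := by
    intro j
    have := Finset.prod_le_pow_card (Finset.univ : Finset (Fin s)) (fun i => ds (y j) (x i)) N
      (fun i _ => hUN j i)
    simpa using this
  have hD1 : ∀ j, 1 ≤ ∏ i, ds (y j) (x i) := fun j => prod_pos' _ _ (fun i _ => hU1 j i)
  -- row masses
  let a : Fin w → Fin s → ℝ := fun l i => ∑ j, Real.log (g j i (some l) : ℝ)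
  have ha0 : ∀ l i, 0 ≤ a l i := fun l i => Finset.sum_nonneg (fun j _ => log_nn _)
  let Λ : Fin w → ℝ := fun l => ∑ j, Real.log (vf V (F l j) : ℝ)
  have hΛ0 : ∀ l, 0 ≤ Λ l := fun l => Finset.sum_nonneg (fun j _ => log_nn _)
  have haΛ : ∀ l, ∑ i, a l i = Λ l := by
    intro l
    simp only [a, Λ]
    rw [Finset.sum_comm]
    apply Finset.sum_congr rfl
    intro j _
    rw [hF]
    simp only
    rw [hgl j l, log_prod_nat _ _ (fun i _ => hg1 j i (some l))]
  have hrl : ∀ l, r (π l).natDegree ≤ s := fun l => (hRC.2 _ (hδ l) (hδd l)).2.1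
  choose Al hAl1 hAl2 using fun l => exists_top s (r (π l).natDegree) (by omega) (hrl l) (a l)
  let p : Fin w → Fin n → ℕ := fun l j => ∏ i ∈ Al l, g j i (some l)
  have hp1 : ∀ l j, 1 ≤ p l j := fun l j => prod_pos' _ _ (fun i _ => hg1 j i _)
  have hlogp : ∀ l, ∑ j, Real.log (p l j : ℝ) = ∑ i ∈ Al l, a l i := by
    intro l
    simp only [p, a]
    rw [Finset.sum_congr rfl (fun j _ => log_prod_nat (Al l) (fun i => g j i (some l))
              (fun i _ => hg1 j i (some l))), Finset.sum_comm]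
  let P : Fin w → Prop := fun l => Ta n (π l).natDegree N (fun j => vf V (F l j)) < ∏ j, (p l j : ℝ)
  let LA : Finset (Fin w) := Finset.univ.filter P
  let U : Finset (Fin w) := Finset.univ.filter (fun l => ¬ P l)
  set A : Finset (Fin s) := LA.biUnion Al with hA
  have hc0 := hRC.1
  have hAcard : (A.card : ℝ) ≤ c' * ∑ l ∈ LA, ((π l).natDegree : ℝ) := by
    have h1 : A.card ≤ ∑ l ∈ LA, (Al l).card := Finset.card_biUnion_le
    have h2 : ((A.card : ℕ) : ℝ) ≤ ∑ l ∈ LA, ((Al l).card : ℝ) := by exact_mod_cast h1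
    refine h2.trans ?_
    rw [Finset.mul_sum]
    apply Finset.sum_le_sum
    intro l _
    rw [hAl1 l]
    exact (hRC.2 _ (hδ l) (hδd l)).2.2.1
  have hnr : (0 : ℝ) < n := by exact_mod_cast hn0
  have hsr : (0 : ℝ) < s := by exact_mod_cast hs
  set L := Real.log (N : ℝ) with hL
  have hL0 : 0 ≤ L := log_nn N
  have hκ := kap_nn d n
  -- undetermined factors
  have hund : ∀ l ∈ U, Λ l ≤ n * (s * kap d n + c' * ((π l).natDegree : ℝ) * L) := by
    intro l hl
    have hl' : ¬ P l := (Finset.mem_filter.1 hl).2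
    have hr := hRC.2 _ (hδ l) (hδd l)
    refine undet_bound n (π l).natDegree d N s (r (π l).natDegree) c' (hδd l) (hδ l) hn0 hs hN1 hr.1
      hr.2.2.2 (fun j => vf V (F l j)) (p l) (fun j => vf_pos _ _) (hp1 l) hl' ?_
    rw [hlogp l]
    have h1 := hAl2 l
    rw [haΛ l] at h1
    exact h1
  have hUsum : ∑ l ∈ U, Λ l ≤ n * (d * s * kap d n + c' * (∑ l ∈ U, ((π l).natDegree : ℝ)) * L) := by
    have h1 := Finset.sum_le_sum hund
    rw [← Finset.mul_sum, Finset.sum_add_distrib, Finset.sum_const,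
      nsmul_eq_mul, ← Finset.sum_mul, ← Finset.mul_sum] at h1
    refine h1.trans (mul_le_mul_of_nonneg_left ?_ (by positivity))
    have hUc : (U.card : ℝ) ≤ d := by
      have h2 : U.card ≤ d := by
        calc U.card ≤ w := by simpa using Finset.card_le_univ U
          _ = ∑ _l : Fin w, 1 := by simp
          _ ≤ ∑ l, (π l).natDegree := Finset.sum_le_sum (fun l _ => hδ l)
          _ ≤ d := by omega
      exact_mod_cast h2
    have h3 : 0 ≤ s * kap d n := by positivity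
    have := mul_le_mul_of_nonneg_right hUc h3
    linarith
  -- the paid part
  let Mj : Fin n → ℕ := fun j => paid y x c j * ∏ l ∈ U, vf V (F l j)
  have hMj1 : ∀ j, 1 ≤ Mj j := fun j => Nat.mul_pos (paid_pos _ _ _ _)
    (prod_pos' _ _ (fun l _ => vf_pos _ _))
  have hcD : ∀ j, c ≤ ∏ i, ds (y j) (x i) := by
    intro j
    rw [hds j]
    exact Nat.le_mul_of_pos_right _ (prod_pos' _ _ (fun l _ => hQ j l))
  have hlogc : Real.log (c : ℝ) ≤ s * L := by
    have h1 : (c : ℝ) ≤ (N : ℝ) ^ s := by exact_mod_cast (hcD ⟨0, hn0⟩).trans (hD _)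
    have h2 := Real.log_le_log (by positivity) h1
    rwa [Real.log_pow] at h2
  have hMsum : ∑ j, Real.log (Mj j : ℝ) ≤ s * L + ∑ l ∈ U, Λ l := by
    have h1 : ∀ j, Real.log (Mj j : ℝ) = Real.log (paid y x c j : ℝ) +
        ∑ l ∈ U, Real.log (vf V (F l j) : ℝ) := by
      intro j
      simp only [Mj]
      rw [Nat.cast_mul, Real.log_mul, log_prod_nat _ _ (fun l _ => vf_pos _ _)]
      · have := paid_pos y x c j; positivity
      · have := prod_pos' U (fun l => vf V (F l j)) (fun l _ => vf_pos _ _)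
        positivity
    rw [Finset.sum_congr rfl (fun j _ => h1 j), Finset.sum_add_distrib, Finset.sum_comm]
    have h2 := log_paid_sum y x c hc
    have h3 : ∑ l ∈ U, ∑ j, Real.log (vf V (F l j) : ℝ) = ∑ l ∈ U, Λ l := rfl
    rw [h3]
    linarith
  set T : ℝ := ((s : ℝ) / n) * L + (d * s * kap d n + c' * (∑ l ∈ U, ((π l).natDegree : ℝ)) * L)
    with hT
  obtain ⟨j0, -, hj0⟩ : ∃ j ∈ (Finset.univ : Finset (Fin n)), Real.log (Mj j : ℝ) ≤ T := by
    apply Finset.exists_le_of_sum_le ⟨⟨0, hn0⟩, Finset.mem_univ _⟩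
    rw [Finset.sum_const, Finset.card_univ, Fintype.card_fin, nsmul_eq_mul]
    refine hMsum.trans ?_
    have h3 : (n : ℝ) * T = s * L +
        n * (d * s * kap d n + c' * (∑ l ∈ U, ((π l).natDegree : ℝ)) * L) := by
      rw [hT]; field_simp
    rw [h3]
    linarith
  have hdeg : (∑ l ∈ LA, ((π l).natDegree : ℝ)) + ∑ l ∈ U, ((π l).natDegree : ℝ) ≤ (d : ℝ) - 1 := by
    have h1 : (∑ l ∈ LA, (π l).natDegree) + ∑ l ∈ U, (π l).natDegree = ∑ l, (π l).natDegree :=
      Finset.sum_filter_add_sum_filter_not _ _ _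
    have h2 : (∑ l ∈ LA, (π l).natDegree) + ∑ l ∈ U, (π l).natDegree + 1 ≤ d := by omega
    have h3 : (((∑ l ∈ LA, (π l).natDegree) + ∑ l ∈ U, (π l).natDegree + 1 : ℕ) : ℝ) ≤ (d : ℝ) := by
      exact_mod_cast h2
    push_cast at h3
    linarith
  have hMB : (Mj j0 : ℝ) * (N : ℝ) ^ A.card ≤ Bd d n s N c' := by
    have h1 : (0 : ℝ) < Mj j0 := by have := hMj1 j0; positivity
    have hN0 : (0 : ℝ) < N := by positivity
    have h2 : (N : ℝ) ^ A.card = Real.exp (L * A.card) := by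
      rw [hL, ← Real.rpow_natCast, Real.rpow_def_of_pos hN0]
    rw [← Real.exp_log h1, h2, ← Real.exp_add]
    unfold Bd
    rw [Real.rpow_def_of_pos hN0, ← Real.exp_add]
    apply Real.exp_le_exp.2
    rw [← hL]
    have h3 : L * A.card ≤ L * (c' * ∑ l ∈ LA, ((π l).natDegree : ℝ)) :=
      mul_le_mul_of_nonneg_left hAcard hL0
    have h4 : c' * L * ((∑ l ∈ LA, ((π l).natDegree : ℝ)) + ∑ l ∈ U, ((π l).natDegree : ℝ)) ≤
        c' * L * ((d : ℝ) - 1) := mul_le_mul_of_nonneg_left hdeg (by positivity)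
    rw [hT] at hj0
    nlinarith
  have hpaid_dvd : paid y x c j0 ∣ c := ⟨_, (paid_mul_rest y x c hc j0).symm⟩
  have hMdvd : Mj j0 ∣ ∏ i, ds (y j0) (x i) := by
    rw [hds j0]
    apply mul_dvd_mul hpaid_dvd
    refine dvd_trans (Finset.prod_dvd_prod_of_dvd _ (fun l => F l j0) (fun l _ => vf_dvd V _ (hF1 l j0)))
      (Finset.prod_dvd_prod_of_subset _ _ _ (Finset.subset_univ U))
  refine ⟨A, LA.card, ?_, fun l j => F (LA.equivFin.symm l) j, ?_, j0, Mj j0, hMj1 j0, hMB,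
    (Nat.le_of_dvd (hD1 j0) hMdvd).trans (hD j0), ?_⟩
  · -- card LA ≤ d
    calc LA.card ≤ w := by
          have := Finset.card_le_univ LA
          simpa using this
      _ = ∑ _l : Fin w, 1 := by simp
      _ ≤ ∑ l, (π l).natDegree := Finset.sum_le_sum (fun l _ => hδ l)
      _ ≤ d := by omega
  · intro l'
    set l : Fin w := (LA.equivFin.symm l' : Fin w) with hl
    have hlA : l ∈ LA := (LA.equivFin.symm l').2
    have hlP : P l := (Finset.mem_filter.1 hlA).2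
    have hdl := hδd l
    have hAlA : Al l ⊆ A := Finset.subset_biUnion_of_mem Al hlA
    refine ⟨π l, (hπ l).1, hδ l, by omega, fun j => rfl, ?_, fun j => p l j, ?_, ?_, ?_, hlP⟩
    · intro j
      refine ⟨hF1 l j, ?_⟩
      have e1 : F l j ≤ ∏ i, ds (y j) (x i) := by
        apply Nat.le_of_dvd (hD1 j)
        rw [hds j]
        exact Dvd.dvd.mul_left (Finset.dvd_prod_of_mem _ (Finset.mem_univ l)) _
      exact le_trans e1 (hD j)
    · intro j
      refine dvd_trans ?_ (Finset.prod_dvd_prod_of_subset _ _ _ hAlA)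
      apply Finset.prod_dvd_prod_of_dvd
      intro i _
      refine dvd_trans ?_ (v1 V _ (hU1 j i))
      rw [hg j i]
      exact Finset.dvd_prod_of_mem (fun l => g j i l) (Finset.mem_univ (some l))
    · intro j
      refine Nat.Coprime.coprime_dvd_left ?_ (v3 _ _ hV (hQ j l))
      rw [hgl j l]
      exact Finset.prod_dvd_prod_of_subset _ _ _ (Finset.subset_univ (Al l))
    · intro j
      refine dvd_trans ?_ (v1 V _ (hQ j l))
      rw [hgl j l]
      exact Finset.prod_dvd_prod_of_subset _ _ _ (Finset.subset_univ (Al l))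
  · intro i
    have e1 : ∏ l : Fin LA.card, F (LA.equivFin.symm l) j0 = ∏ l ∈ LA, F l j0 := by
      rw [← Finset.prod_coe_sort LA]
      exact Fintype.prod_equiv LA.equivFin.symm _ _ (fun l => rfl)
    rw [e1]
    set v := vf (V * Hp y x i) (ds (y j0) (x i)) with hv
    have hvd : v ∣ ds (y j0) (x i) := vf_dvd _ _ (hU1 j0 i)
    have hvD : v ∣ ∏ i, ds (y j0) (x i) :=
      hvd.trans (Finset.dvd_prod_of_mem (fun i => ds (y j0) (x i)) (Finset.mem_univ i))
    have hDfac : ∏ i, ds (y j0) (x i) = (rest y x c j0 * ∏ l ∈ U, wf V (F l j0)) *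
        (Mj j0 * ∏ l ∈ LA, F l j0) := by
      rw [hds j0, ← Finset.prod_filter_mul_prod_filter_not (Finset.univ : Finset (Fin w)) P
        (fun l => ((π l).eval (y j0 : ℤ)).natAbs)]
      have e2 : ∏ l ∈ Finset.univ.filter (fun l => ¬ P l), ((π l).eval (y j0 : ℤ)).natAbs =
          (∏ l ∈ U, wf V (F l j0)) * ∏ l ∈ U, vf V (F l j0) := by
        rw [← Finset.prod_mul_distrib]
        exact Finset.prod_congr rfl (fun l _ => (wf_mul_vf V _ (hF1 l j0)).symm)
      have e3 : ∏ l ∈ Finset.univ.filter P, ((π l).eval (y j0 : ℤ)).natAbs = ∏ l ∈ LA, F l j0 := rfl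
      rw [e2, e3]
      simp only [Mj]
      conv_lhs => rw [← paid_mul_rest y x c hc j0]
      ring
    rw [hDfac] at hvD
    refine Nat.Coprime.dvd_of_dvd_mul_left ?_ hvD
    rw [Nat.coprime_iff_gcd_eq_one]
    by_contra hgc
    obtain ⟨q, hq, hqd⟩ := Nat.exists_prime_and_dvd hgc
    have hqv : q ∣ v := hqd.trans (Nat.gcd_dvd_left _ _)
    have hqr : q ∣ rest y x c j0 * ∏ l ∈ U, wf V (F l j0) := hqd.trans (Nat.gcd_dvd_right _ _)
    obtain ⟨hqds, hqVH⟩ := prime_dvd_vf hq hqv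
    have hqV : ¬ q ∣ V := fun h => hqVH (h.mul_right _)
    have hqH : ¬ q ∣ Hp y x i := fun h => hqVH (h.mul_left _)
    rcases (Nat.Prime.dvd_mul hq).1 hqr with h | h
    · unfold rest at h
      obtain ⟨r, hr, hqr'⟩ := (Prime.dvd_finsetProd_iff hq.prime _).mp h
      rw [mem_filter] at hr
      have h2 := hq.dvd_of_dvd_pow hqr'
      have h3 := (Nat.prime_dvd_prime_iff_eq hq (Nat.prime_of_mem_primeFactors hr.1)).mp h2
      subst h3
      apply hr.2
      refine ⟨hqV, i, hqds, ?_⟩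
      intro i' hi' j' hcon
      apply hqH
      unfold Hp
      refine dvd_trans ?_ (Finset.dvd_prod_of_mem _ (Finset.mem_filter.2 ⟨Finset.mem_univ i', hi'⟩))
      exact dvd_trans hcon (Finset.dvd_prod_of_mem (fun j => ds (y j) (x i')) (Finset.mem_univ j'))
    · obtain ⟨l, -, hl⟩ := (Prime.dvd_finsetProd_iff hq.prime _).mp h
      exact hqV (prime_dvd_wf hq hl)

end Pool.Agent.TH900.VPS
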