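import Pool.Agent.W89.VP.Defs

/-! # The resultant of two irreducible integer polynomials, seen through any `2 δ` points, with the column
structure of the matrix (adapted from `Pool.Agent.W320.PV_UNIQA`) -/

set_option autoImplicit false

namespace Pool.Agent.TH900.VPS.A2

open Finset Polynomial Pool.Agent.W89.VP

/-- the polynomials `X ^ a π`, `X ^ a π'` -/
noncomputable def PP (δ : ℕ) (π π' : ℤ[X]) (j : ℕ) : ℤ[X] :=
  if j < δ then X ^ j * π else X ^ (j - δ) * π'

lemma PP_deg {δ : ℕ} {π π' : ℤ[X]} (h : π.natDegree = δ) (h' : π'.natDegree = δ) {j : ℕ}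
    (hj : j < 2 * δ) : (PP δ π π' j).natDegree < 2 * δ := by
  unfold PP
  split_ifs with hc
  · refine lt_of_le_of_lt Polynomial.natDegree_mul_le ?_
    rw [Polynomial.natDegree_X_pow]
    omega
  · refine lt_of_le_of_lt Polynomial.natDegree_mul_le ?_
    rw [Polynomial.natDegree_X_pow]
    omega

lemma coeff_sum (δ : ℕ) (v : ℕ → ℤ) (m : ℕ) :
    (∑ n ∈ range δ, Polynomial.C (v n) * X ^ n : ℤ[X]).coeff m = if m < δ then v m else 0 := by
  rw [Polynomial.finsetSum_coeff]
  simp only [Polynomial.coeff_C_mul_X_pow]
  rw [Finset.sum_ite_eq (range δ) m v]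
  simp only [Finset.mem_range]

/-- the exponent of the `j`-th column -/
def bexp (δ j : ℕ) : ℕ := if j < δ then j else j - δ

/-- like `UNIQAStm`, with exponents depending on the column only -/
def UNIQA2 : Prop := ∀ δ : ℕ, 1 ≤ δ → ∀ π π' : ℤ[X], Irreducible π → Irreducible π' →
  π.natDegree = δ → π'.natDegree = δ → ¬ Associated π π' →
  ∃ ρ : ℤ, ρ ≠ 0 ∧ ∀ z : Fin (2 * δ) → ℤ, ∃ E : Matrix (Fin (2 * δ)) (Fin (2 * δ)) ℤ,
    E.det = ρ * (Matrix.vandermonde z).det ∧
    ∀ i j, E i j = z i ^ (bexp δ j) * π.eval (z i) ∨ E i j = z i ^ (bexp δ j) * π'.eval (z i)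

theorem main : UNIQA2 := by
  intro δ hδ π π' hπ hπ' hd hd' hass
  set S : Matrix (Fin (2 * δ)) (Fin (2 * δ)) ℤ :=
    Matrix.of fun j b => (PP δ π π' j).coeff b with hS
  refine ⟨S.det, ?_, ?_⟩
  · intro h0
    obtain ⟨v, hv, hvS⟩ := Matrix.exists_vecMul_eq_zero_iff.2 h0
    set v' : ℕ → ℤ := fun n => if h : n < 2 * δ then v ⟨n, h⟩ else 0 with hv'
    set A : ℤ[X] := ∑ n ∈ range δ, Polynomial.C (v' n) * X ^ n with hA
    set B : ℤ[X] := ∑ n ∈ range δ, Polynomial.C (v' (δ + n)) * X ^ n with hB
    have hsum : A * π + B * π' = ∑ n ∈ range (2 * δ), Polynomial.C (v' n) * PP δ π π' n := by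
      rw [two_mul, Finset.sum_range_add, hA, hB, Finset.sum_mul, Finset.sum_mul]
      congr 1
      · apply Finset.sum_congr rfl
        intro n hn
        have hn := Finset.mem_range.1 hn
        unfold PP
        rw [if_pos hn, mul_assoc]
      · apply Finset.sum_congr rfl
        intro n hn
        unfold PP
        rw [if_neg (by omega), mul_assoc, Nat.add_sub_cancel_left]
    have hzero : A * π + B * π' = 0 := by
      rw [hsum]
      ext b
      rw [Polynomial.finsetSum_coeff, Polynomial.coeff_zero]
      rcases lt_or_ge b (2 * δ) with hb | hb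
      · have h1 := congrFun hvS ⟨b, hb⟩
        simp only [Matrix.vecMul, dotProduct, Pi.zero_apply, hS, Matrix.of_apply] at h1
        rw [← h1, Finset.sum_range]
        apply Finset.sum_congr rfl
        intro j _
        rw [Polynomial.coeff_C_mul]
        simp only [hv', j.2, dif_pos]
      · apply Finset.sum_eq_zero
        intro n hn
        have hn := Finset.mem_range.1 hn
        rw [Polynomial.coeff_C_mul, Polynomial.coeff_eq_zero_of_natDegree_lt, mul_zero]
        exact lt_of_lt_of_le (PP_deg hd hd' hn) hb
    have hp : Prime π := hπ.prime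
    have hdvd : π ∣ B * π' := ⟨-A, by linear_combination hzero⟩
    have hB0 : B = 0 := by
      rcases hp.dvd_or_dvd hdvd with h1 | h1
      · by_contra hne
        have h2 := Polynomial.natDegree_le_of_dvd h1 hne
        have h3 : B.degree < δ := by
          rw [Polynomial.degree_lt_iff_coeff_zero]
          intro m hm
          rw [hB, coeff_sum δ (fun n => v' (δ + n)), if_neg (by omega)]
        have h4 := (Polynomial.natDegree_lt_iff_degree_lt hne).2 h3
        omega
      · exact absurd (hπ.associated_of_dvd hπ' h1) hass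
    have hA0 : A = 0 := by
      rw [hB0, zero_mul, add_zero] at hzero
      rcases mul_eq_zero.1 hzero with h1 | h1
      · exact h1
      · exact absurd h1 hπ.ne_zero
    apply hv
    funext j
    have hv0 : v' j = v j := by
      simp only [hv', j.2, dif_pos]
    rw [Pi.zero_apply, ← hv0]
    rcases lt_or_ge (j : ℕ) δ with hj | hj
    · have h1 := coeff_sum δ v' j
      rw [← hA, hA0, if_pos hj, Polynomial.coeff_zero] at h1
      exact h1.symm
    · have h1 := coeff_sum δ (fun n => v' (δ + n)) (j - δ)
      have h2 : (j : ℕ) - δ < δ := by have := j.2; omega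
      rw [← hB, hB0, if_pos h2, Polynomial.coeff_zero] at h1
      have h3 : δ + ((j : ℕ) - δ) = j := by omega
      simp only [h3] at h1
      exact h1.symm
  · intro z
    refine ⟨Matrix.of fun i j => (PP δ π π' j).eval (z i), ?_, ?_⟩
    · have hE : (Matrix.of fun i j : Fin (2 * δ) => (PP δ π π' j).eval (z i)) =
          Matrix.vandermonde z * S.transpose := by
        ext i j
        rw [Matrix.mul_apply, Matrix.of_apply,
          Polynomial.eval_eq_sum_range' (PP_deg hd hd' j.2) (z i), Finset.sum_range]
        apply Finset.sum_congr rfl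
        intro b _
        rw [Matrix.vandermonde_apply, Matrix.transpose_apply, hS, Matrix.of_apply, mul_comm]
      rw [hE, Matrix.det_mul, Matrix.det_transpose, mul_comm]
    · intro i j
      rcases lt_or_ge (j : ℕ) δ with hj | hj
      · refine Or.inl ?_
        rw [Matrix.of_apply]
        unfold PP bexp
        rw [if_pos hj, if_pos hj, Polynomial.eval_mul, Polynomial.eval_pow, Polynomial.eval_X]
      · refine Or.inr ?_
        rw [Matrix.of_apply]
        unfold PP bexp
        rw [if_neg (by omega), if_neg (by omega), Polynomial.eval_mul, Polynomial.eval_pow,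
          Polynomial.eval_X]

end Pool.Agent.TH900.VPS.A2
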