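import Pool.Agent.W89.VP.Defs
import Pool.Agent.W505.PV.VF
import Pool.Agent.W298.PV_UNIQB
import Pool.Agent.TH900.VPS.UniqA

set_option autoImplicit false

/-!
# Uniqueness of the value vector from large divisors, with a threshold that only uses the parts coprime to the
Vandermonde product
-/

namespace Pool.Agent.TH900.VPS

open Pool.Agent.W89.VP Finset Polynomial
open Pool.Agent.W505.PV.VF (wf wf_mul_vf vf_pos)
open Pool.Agent.W298.PVUniqB (exists_small card_roots_mod not_dvd_sub)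
open Pool.Agent.TH900.VPS.A2 (bexp UNIQA2)

lemma wf_pos (V u : ℕ) : 1 ≤ wf V u := by
  unfold wf
  exact Nat.one_le_iff_ne_zero.mpr (prod_ne_zero_iff.mpr fun p hp =>
    pow_ne_zero _ (Nat.prime_of_mem_primeFactors (mem_filter.mp hp).1).ne_zero)

lemma prime_dvd_wf {V u p : ℕ} (hp : p.Prime) (h : p ∣ wf V u) : p ∣ V := by
  unfold wf at h
  obtain ⟨q, hq, hpq⟩ := (Prime.dvd_finsetProd_iff hp.prime _).mp h
  rw [mem_filter] at hq
  have h2 := hp.dvd_of_dvd_pow hpq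
  have h3 := (Nat.prime_dvd_prime_iff_eq hp (Nat.prime_of_mem_primeFactors hq.1)).mp h2
  rw [h3]
  exact hq.2

lemma prime_dvd_vf {V u p : ℕ} (hp : p.Prime) (h : p ∣ vf V u) : p ∣ u ∧ ¬ p ∣ V := by
  unfold vf at h
  obtain ⟨q, hq, hpq⟩ := (Prime.dvd_finsetProd_iff hp.prime _).mp h
  rw [mem_filter] at hq
  have h2 := hp.dvd_of_dvd_pow hpq
  have h3 := (Nat.prime_dvd_prime_iff_eq hp (Nat.prime_of_mem_primeFactors hq.1)).mp h2
  rw [h3]
  exact ⟨Nat.dvd_of_mem_primeFactors hq.1, hq.2⟩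

lemma wf_dvd (V u : ℕ) (hu : 1 ≤ u) : wf V u ∣ u := ⟨vf V u, (wf_mul_vf V u hu).symm⟩

lemma vf_dvd (V u : ℕ) (hu : 1 ≤ u) : vf V u ∣ u := ⟨wf V u, by rw [mul_comm]; exact (wf_mul_vf V u hu).symm⟩

lemma det_bound2 (m : ℕ) (E : Matrix (Fin m) (Fin m) ℤ) (B C : Fin m → ℝ)
    (hB : ∀ i j, |(E i j : ℝ)| ≤ B i * C j) :
    |(E.det : ℝ)| ≤ (m.factorial : ℝ) * ((∏ i, B i) * ∏ j, C j) := by
  rw [Matrix.det_apply', Int.cast_sum]
  refine (Finset.abs_sum_le_sum_abs _ _).trans ?_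
  have h : ∀ σ ∈ (Finset.univ : Finset (Equiv.Perm (Fin m))),
      |(((Equiv.Perm.sign σ : ℤ) * ∏ i, E (σ i) i : ℤ) : ℝ)| ≤ (∏ i, B i) * ∏ j, C j := by
    intro σ _
    rw [Int.cast_mul, abs_mul]
    have h1 : |(((Equiv.Perm.sign σ : ℤˣ) : ℤ) : ℝ)| = 1 := by
      rcases Int.units_eq_one_or (Equiv.Perm.sign σ) with h | h <;> simp [h]
    rw [h1, one_mul, Int.cast_prod, Finset.abs_prod]
    calc ∏ i, |(E (σ i) i : ℝ)| ≤ ∏ i, (B (σ i) * C i) :=
          Finset.prod_le_prod (fun _ _ => abs_nonneg _) (fun i _ => hB _ _)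
      _ = (∏ i, B i) * ∏ j, C j := by
          rw [Finset.prod_mul_distrib, Equiv.prod_comp σ B]
  refine (Finset.sum_le_sum h).trans ?_
  rw [Finset.sum_const, Finset.card_univ, Fintype.card_perm, Fintype.card_fin, nsmul_eq_mul]

lemma bexp_lt {δ j : ℕ} (h : j < 2 * δ) : bexp δ j < δ := by
  unfold bexp
  split_ifs <;> omega

lemma sum_bexp (δ : ℕ) : ∑ j : Fin (2 * δ), bexp δ j = δ * (δ - 1) := by
  rw [← Finset.sum_range (fun j => bexp δ j), two_mul, Finset.sum_range_add]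
  have h1 : ∑ x ∈ Finset.range δ, bexp δ x = ∑ x ∈ Finset.range δ, x := by
    apply Finset.sum_congr rfl
    intro x hx
    unfold bexp
    rw [if_pos (Finset.mem_range.1 hx)]
  have h2 : ∑ x ∈ Finset.range δ, bexp δ (δ + x) = ∑ x ∈ Finset.range δ, x := by
    apply Finset.sum_congr rfl
    intro x _
    unfold bexp
    rw [if_neg (by omega)]
    omega
  rw [h1, h2]
  have := Finset.sum_range_id_mul_two δ
  omega

/-- the threshold -/
noncomputable def Ta (n δ N : ℕ) (G : Fin n → ℕ) : ℝ :=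
  ((2 * δ).factorial : ℝ) * (N : ℝ) ^ (δ * (δ - 1)) * 4 ^ n *
    (∏ j, (G j : ℝ)) ^ ((2 * (δ : ℝ)) / (n : ℝ))

/-- the divisibility half -/
theorem prod_dvd_rho (n δ : ℕ) (hδ : 1 ≤ δ) (hδn : 2 * δ ≤ n) (y : Fin n → ℕ)
    (π π' : ℤ[X]) (hπ : Irreducible π) (hd : π.natDegree = δ)
    (F F' : Fin n → ℕ) (hF : ∀ j, F j = (π.eval (y j : ℤ)).natAbs)
    (hF' : ∀ j, F' j = (π'.eval (y j : ℤ)).natAbs) (ρ : ℤ)
    (hρ : ∀ z : Fin (2 * δ) → ℤ, ∃ E : Matrix (Fin (2 * δ)) (Fin (2 * δ)) ℤ,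
      E.det = ρ * (Matrix.vandermonde z).det ∧
      ∀ i j, E i j = z i ^ (bexp δ j) * π.eval (z i) ∨ E i j = z i ^ (bexp δ j) * π'.eval (z i))
    (p : Fin n → ℕ) (hpV : ∀ j, Nat.Coprime (p j) (Vd y)) (hpF : ∀ j, p j ∣ F j)
    (hpF' : ∀ j, p j ∣ F' j) : (∏ j, p j) ∣ ρ.natAbs := by
  rw [Nat.dvd_iff_prime_pow_dvd_dvd]
  intro q k hq hk
  rcases Nat.eq_zero_or_pos k with rfl | hkpos
  · simp
  by_cases hex : ∃ j, q ∣ p j
  · obtain ⟨j0, hj0⟩ := hex
    have hqV : ¬ q ∣ Vd y := by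
      intro hV
      have := Nat.dvd_gcd hj0 hV
      rw [Nat.Coprime.gcd_eq_one (hpV j0)] at this
      exact hq.one_lt.ne' (Nat.dvd_one.mp this)
    have hcard := card_roots_mod y q hq hqV π hπ (by omega)
    obtain ⟨T, hJT, -, hTc⟩ := Finset.exists_subsuperset_card_eq
      (Finset.subset_univ (Finset.univ.filter fun j : Fin n => (q : ℤ) ∣ π.eval (y j : ℤ)))
      (n := 2 * δ) (by omega) (by simpa using hδn)
    set e : Fin (2 * δ) → Fin n := fun i => T.orderEmbOfFin hTc i with he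
    have hei : Function.Injective e := (T.orderEmbOfFin hTc).injective
    have hrange : ∀ j, j ∉ T → ¬ q ∣ p j := by
      intro j hj hqj
      apply hj
      apply hJT
      rw [Finset.mem_filter]
      refine ⟨Finset.mem_univ _, ?_⟩
      have h1 : (q : ℕ) ∣ (π.eval (y j : ℤ)).natAbs := by
        rw [← hF j]
        exact hqj.trans (hpF j)
      exact Int.natCast_dvd.mpr h1
    have hprod : ∏ i, p (e i) = ∏ j ∈ T, p j := by
      have h1 : T = Finset.univ.map (T.orderEmbOfFin hTc).toEmbedding := by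
        ext j
        rw [Finset.mem_map]
        have := Finset.range_orderEmbOfFin T hTc
        constructor
        · intro hj
          have : j ∈ Set.range (T.orderEmbOfFin hTc) := by rw [this]; exact hj
          obtain ⟨i, hi⟩ := this
          exact ⟨i, Finset.mem_univ _, hi⟩
        · rintro ⟨i, -, rfl⟩
          exact Finset.orderEmbOfFin_mem T hTc i
      conv_rhs => rw [h1]
      rw [Finset.prod_map]
      rfl
    -- q^k divides the product over T
    have hkT : q ^ k ∣ ∏ j ∈ T, p j := by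
      rw [← Finset.prod_mul_prod_compl T p] at hk
      refine Nat.Coprime.dvd_of_dvd_mul_right ?_ hk
      apply Nat.Coprime.pow_left
      rw [Nat.coprime_prod_right_iff]
      intro j hj
      rw [Nat.Prime.coprime_iff_not_dvd hq]
      exact hrange j (Finset.mem_compl.mp hj)
    obtain ⟨E, hE1, hE2⟩ := hρ (fun i => (y (e i) : ℤ))
    have hdet : (∏ i, (p (e i) : ℤ)) ∣ E.det := by
      have hrow : ∀ i j, (p (e i) : ℤ) ∣ E i j := by
        intro i j
        rcases hE2 i j with hE | hE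
        · rw [hE]
          apply Dvd.dvd.mul_left
          rw [Int.natCast_dvd, ← hF (e i)]
          exact hpF (e i)
        · rw [hE]
          apply Dvd.dvd.mul_left
          rw [Int.natCast_dvd, ← hF' (e i)]
          exact hpF' (e i)
      choose E' hE' using hrow
      have : E = Matrix.of fun i j => (p (e i) : ℤ) * (Matrix.of E') i j := by
        ext i j
        exact hE' i j
      rw [this, Matrix.det_mul_column]
      exact dvd_mul_right _ _
    have hkd : q ^ k ∣ ρ.natAbs * ((Matrix.vandermonde fun i => (y (e i) : ℤ)).det).natAbs := by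
      rw [← Int.natAbs_mul, ← hE1]
      have h1 : ((q ^ k : ℕ) : ℤ) ∣ E.det := by
        refine dvd_trans ?_ hdet
        have : (∏ i, (p (e i) : ℤ)) = ((∏ i, p (e i) : ℕ) : ℤ) := by push_cast; rfl
        rw [this, hprod]
        exact_mod_cast hkT
      exact Int.natCast_dvd.mp h1
    refine Nat.Coprime.dvd_of_dvd_mul_right ?_ hkd
    apply Nat.Coprime.pow_left
    rw [Nat.Prime.coprime_iff_not_dvd hq, Matrix.det_vandermonde]
    intro hcon
    have hqz : Prime (q : ℤ) := Nat.prime_iff_prime_int.mp hq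
    have h1 := Int.natCast_dvd.mpr hcon
    obtain ⟨a, -, ha⟩ := hqz.exists_mem_finset_dvd h1
    obtain ⟨b, hb, hab⟩ := hqz.exists_mem_finset_dvd ha
    rw [Finset.mem_Ioi] at hb
    exact not_dvd_sub y q hqV (e b) (e a) (fun h => hb.ne' (hei h)) hab
  · exfalso
    push Not at hex
    have h1 : q ∣ ∏ j, p j := (dvd_pow_self q (by omega)).trans hk
    obtain ⟨j, -, hj⟩ := (Nat.prime_iff.mp hq).exists_mem_finset_dvd h1
    exact hex j hj

/-- uniqueness with the reduced threshold -/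
def UNIQ' : Prop := ∀ n δ N : ℕ, 1 ≤ δ → 2 * δ ≤ n → ∀ y : Fin n → ℕ, Good n N y →
  ∀ π π' : ℤ[X], Irreducible π → Irreducible π' → π.natDegree = δ → π'.natDegree = δ →
  ∀ F F' : Fin n → ℕ, (∀ j, F j = (π.eval (y j : ℤ)).natAbs) → (∀ j, F' j = (π'.eval (y j : ℤ)).natAbs) →
  (∀ j, 1 ≤ F j) → (∀ j, 1 ≤ F' j) → (∀ j, F' j ≤ 2 * F j) → (∀ j, wf (Vd y) (F j) = wf (Vd y) (F' j)) →
  ∀ p : Fin n → ℕ, (∀ j, Nat.Coprime (p j) (Vd y)) → (∀ j, p j ∣ F j) → (∀ j, p j ∣ F' j) →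
  Ta n δ N (fun j => vf (Vd y) (F j)) < ∏ j, (p j : ℝ) → F = F'

theorem uniq' (h : UNIQA2) : UNIQ' := by
  intro n δ N hδ hδn y hy π π' hπ hπ' hd hd' F F' hF hF' hF1 hF1' hFF hww p hpV hpF hpF' hT
  by_contra hne
  have hna : ¬ Associated π π' := by
    rintro ⟨u, hu⟩
    apply hne
    funext j
    rw [hF j, hF' j, ← hu, Polynomial.eval_mul, Int.natAbs_mul]
    have h1 : IsUnit ((u : ℤ[X]).eval (y j : ℤ)) := by
      have := u.isUnit.map (Polynomial.evalRingHom (y j : ℤ))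
      exact this
    rw [Int.isUnit_iff_natAbs_eq.mp h1, mul_one]
  obtain ⟨ρ, hρ0, hρ⟩ := h δ hδ π π' hπ hπ' hd hd' hna
  have hn0 : 0 < n := by omega
  have hp1 : ∀ j, 0 < p j := fun j => Nat.pos_of_dvd_of_pos (hpF j) (hF1 j)
  have hN1 : 1 ≤ N := (hy.2 ⟨0, hn0⟩).1.trans (hy.2 ⟨0, hn0⟩).2
  have hdiv := prod_dvd_rho n δ hδ hδn y π π' hπ hd F F' hF hF' ρ hρ p hpV hpF hpF'
  set V := Vd y with hV
  obtain ⟨e, hei, he⟩ := exists_small n (2 * δ) hn0 hδn (fun j => Real.log (vf V (F j)))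
  obtain ⟨E, hE1, hE2⟩ := hρ (fun i => (y (e i) : ℤ))
  have hvan0 : (Matrix.vandermonde fun i => (y (e i) : ℤ)).det ≠ 0 := by
    rw [Matrix.det_vandermonde_ne_zero_iff]
    intro a b hab
    have hab' : (y (e a) : ℤ) = (y (e b) : ℤ) := hab
    have : y (e a) = y (e b) := by exact_mod_cast hab'
    exact hei (hy.1 this)
  have hEdet0 : E.det ≠ 0 := by
    rw [hE1]
    exact mul_ne_zero hρ0 hvan0
  have hB := det_bound2 (2 * δ) E (fun i => 2 * (F (e i) : ℝ)) (fun j => (N : ℝ) ^ (bexp δ j)) (by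
    intro i j
    have hyN : ((y (e i) : ℝ)) ≤ N := by exact_mod_cast (hy.2 (e i)).2
    have hpow : |(((y (e i) : ℤ) ^ (bexp δ j) : ℤ) : ℝ)| ≤ (N : ℝ) ^ (bexp δ j) := by
      push_cast
      rw [abs_of_nonneg (by positivity)]
      gcongr
    rw [mul_comm (2 * (F (e i) : ℝ))]
    rcases hE2 i j with hE | hE
    · rw [hE, Int.cast_mul, abs_mul]
      have h1 : |((π.eval (y (e i) : ℤ) : ℤ) : ℝ)| ≤ 2 * F (e i) := by
        rw [hF (e i), ← Int.cast_abs, Nat.cast_natAbs]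
        have : (0 : ℝ) ≤ ((|π.eval (y (e i) : ℤ)| : ℤ) : ℝ) := by
          exact_mod_cast abs_nonneg _
        linarith
      gcongr
    · rw [hE, Int.cast_mul, abs_mul]
      have h1 : |((π'.eval (y (e i) : ℤ) : ℤ) : ℝ)| ≤ 2 * F (e i) := by
        have h2 : ((F' (e i) : ℕ) : ℝ) ≤ 2 * F (e i) := by exact_mod_cast hFF (e i)
        rw [hF' (e i), Nat.cast_natAbs] at h2
        rw [← Int.cast_abs]
        exact h2
      gcongr)
  -- the bad parts divide the determinant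
  have hW : (∏ i, (wf V (F (e i)) : ℤ)) ∣ E.det := by
    have hrow : ∀ i j, (wf V (F (e i)) : ℤ) ∣ E i j := by
      intro i j
      rcases hE2 i j with hE | hE
      · rw [hE]
        apply Dvd.dvd.mul_left
        rw [Int.natCast_dvd, ← hF (e i)]
        exact wf_dvd V _ (hF1 _)
      · rw [hE]
        apply Dvd.dvd.mul_left
        rw [Int.natCast_dvd, ← hF' (e i), hww (e i)]
        exact wf_dvd V _ (hF1' _)
    choose E' hE' using hrow
    have : E = Matrix.of fun i j => (wf V (F (e i)) : ℤ) * (Matrix.of E') i j := by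
      ext i j
      exact hE' i j
    rw [this, Matrix.det_mul_column]
    exact dvd_mul_right _ _
  have hW' : (∏ i, wf V (F (e i))) ∣ E.det.natAbs := by
    have : (∏ i, (wf V (F (e i)) : ℤ)) = ((∏ i, wf V (F (e i)) : ℕ) : ℤ) := by push_cast; rfl
    rw [this] at hW
    exact Int.natCast_dvd.mp hW
  have hP' : (∏ j, p j) ∣ E.det.natAbs := by
    rw [hE1, Int.natAbs_mul]
    exact hdiv.mul_right _
  have hcop : Nat.Coprime (∏ i, wf V (F (e i))) (∏ j, p j) := by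
    rw [Nat.coprime_prod_right_iff]
    intro j _
    rw [Nat.coprime_prod_left_iff]
    intro i _
    rw [Nat.coprime_iff_gcd_eq_one]
    by_contra hg
    obtain ⟨q, hq, hqd⟩ := Nat.exists_prime_and_dvd hg
    have h1 : q ∣ V := prime_dvd_wf hq (hqd.trans (Nat.gcd_dvd_left _ _))
    have h2 : q ∣ p j := hqd.trans (Nat.gcd_dvd_right _ _)
    have := Nat.dvd_gcd h2 h1
    rw [Nat.Coprime.gcd_eq_one (hpV j)] at this
    exact hq.one_lt.ne' (Nat.dvd_one.mp this)
  have hWP := Nat.Coprime.mul_dvd_of_dvd_of_dvd hcop hW' hP'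
  have hle : (∏ i, wf V (F (e i))) * (∏ j, p j) ≤ E.det.natAbs :=
    Nat.le_of_dvd (Int.natAbs_pos.mpr hEdet0) hWP
  have hle' : (∏ i, (wf V (F (e i)) : ℝ)) * (∏ j, (p j : ℝ)) ≤ |(E.det : ℝ)| := by
    have h1 : (((∏ i, wf V (F (e i))) * (∏ j, p j) : ℕ) : ℝ) ≤ ((E.det.natAbs : ℕ) : ℝ) := by
      exact_mod_cast hle
    rw [Nat.cast_natAbs, Int.cast_abs, Nat.cast_mul, Nat.cast_prod, Nat.cast_prod] at h1
    exact h1
  have hFwv : ∀ i, (F (e i) : ℝ) = (wf V (F (e i)) : ℝ) * (vf V (F (e i)) : ℝ) := by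
    intro i
    exact_mod_cast (wf_mul_vf V _ (hF1 (e i))).symm
  have hWpos : (0 : ℝ) < ∏ i, (wf V (F (e i)) : ℝ) :=
    Finset.prod_pos fun i _ => by have := wf_pos V (F (e i)); positivity
  have hsize : ∏ j, (p j : ℝ) ≤ ((2 * δ).factorial : ℝ) * (N : ℝ) ^ (δ * (δ - 1)) * 2 ^ (2 * δ) *
      ∏ i : Fin (2 * δ), (vf V (F (e i)) : ℝ) := by
    have h1 := hle'.trans hB
    rw [Finset.prod_mul_distrib, Finset.prod_const,
      Finset.card_univ, Fintype.card_fin, Finset.prod_pow_eq_pow_sum, sum_bexp] at h1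
    have h2 : ∏ i : Fin (2 * δ), (F (e i) : ℝ) =
        (∏ i, (wf V (F (e i)) : ℝ)) * ∏ i : Fin (2 * δ), (vf V (F (e i)) : ℝ) := by
      rw [← Finset.prod_mul_distrib]
      exact Finset.prod_congr rfl fun i _ => hFwv i
    rw [h2] at h1
    refine le_of_mul_le_mul_left ?_ hWpos
    refine h1.trans (le_of_eq ?_)
    ring
  have h2 : ∏ i : Fin (2 * δ), (vf V (F (e i)) : ℝ) ≤
      (∏ j, (vf V (F j) : ℝ)) ^ ((2 * (δ : ℝ)) / (n : ℝ)) := by
    have hFpos : ∀ j, (0 : ℝ) < vf V (F j) := fun j => by exact_mod_cast vf_pos V (F j)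
    have hP1 : (0 : ℝ) < ∏ i : Fin (2 * δ), (vf V (F (e i)) : ℝ) :=
      Finset.prod_pos fun i _ => hFpos _
    have hP2 : (0 : ℝ) < ∏ j, (vf V (F j) : ℝ) := Finset.prod_pos fun i _ => hFpos _
    rw [← Real.log_le_log_iff hP1 (Real.rpow_pos_of_pos hP2 _), Real.log_rpow hP2,
      Real.log_prod (fun i _ => (hFpos _).ne'), Real.log_prod (fun i _ => (hFpos _).ne')]
    have hn' : (0 : ℝ) < n := by exact_mod_cast hn0
    rw [div_mul_eq_mul_div, le_div_iff₀ hn']
    push_cast at he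
    linarith
  have h3 : (2 : ℝ) ^ (2 * δ) ≤ 4 ^ n := by
    calc (2 : ℝ) ^ (2 * δ) ≤ 2 ^ n := pow_le_pow_right₀ (by norm_num) hδn
      _ ≤ 4 ^ n := by gcongr; norm_num
  have h5 : ((2 * δ).factorial : ℝ) * (N : ℝ) ^ (δ * (δ - 1)) * 2 ^ (2 * δ) *
      ∏ i : Fin (2 * δ), (vf V (F (e i)) : ℝ) ≤ Ta n δ N (fun j => vf V (F j)) := by
    unfold Ta
    have hP1 : (0 : ℝ) ≤ ∏ i : Fin (2 * δ), (vf V (F (e i)) : ℝ) :=
      Finset.prod_nonneg fun i _ => by positivity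
    gcongr
  linarith

end Pool.Agent.TH900.VPS
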